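import Pool.Agent.MP_97b1c0_an.CP.Labels

set_option autoImplicit false

namespace Pool.Agent.MP_97b1c0_an.CP

open Set Function

/-! ## CP-3 charts and gluing -/

private theorem aux_Qr (k : ℕ) : (0 : ℝ) < 3 * (Q k : ℝ) := by
  have : (0 : ℝ) < (Q k : ℝ) := by exact_mod_cast Q_pos k
  linarith

/-- the local coordinate of the cell, from left to right -/
private noncomputable def sl (k e : ℕ) (t : unitInterval) : ℝ :=
  if ori k e then (t : ℝ) else 1 - (t : ℝ)

private theorem sl_nonneg (k e : ℕ) (t : unitInterval) : 0 ≤ sl k e t := by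
  unfold sl
  have h1 := t.2.1
  have h2 := t.2.2
  split_ifs <;> linarith

private theorem sl_le (k e : ℕ) (t : unitInterval) : sl k e t ≤ 1 := by
  unfold sl
  have h1 := t.2.1
  have h2 := t.2.2
  split_ifs <;> linarith

theorem χ_coe (k e : ℕ) (t : unitInterval) (he : e < 3 * Q k) :
    (χ k e t : ℝ) = ((e : ℝ) + if ori k e then (t : ℝ) else 1 - (t : ℝ)) / (3 * (Q k : ℝ)) := by
  have h1 := sl_nonneg k e t
  have h2 := sl_le k e t
  unfold sl at h1 h2
  have hQ := aux_Qr k
  have he' : (e : ℝ) + 1 ≤ 3 * (Q k : ℝ) := by exact_mod_cast he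
  unfold χ
  rw [Set.projIcc_of_mem]
  refine ⟨div_nonneg (by positivity) hQ.le, ?_⟩
  rw [div_le_one hQ]
  linarith

theorem χ_zero (k e : ℕ) : χ k e 0 = pt k (v0 k e) := by
  unfold χ pt v0
  cases h : ori k e <;> simp

theorem χ_one (k e : ℕ) : χ k e 1 = pt k (v1 k e) := by
  unfold χ pt v1
  cases h : ori k e <;> simp

theorem χ_continuous (k e : ℕ) : Continuous (χ k e) := by
  unfold χ
  refine continuous_projIcc.comp ?_
  cases h : ori k e
  · simp only [Bool.false_eq_true, if_false]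
    fun_prop
  · simp only [if_true]
    fun_prop

theorem χ_dist (k e : ℕ) (t t' : unitInterval) : dist (χ k e t) (χ k e t') ≤ 1 / 3 * dist t t' := by
  unfold χ
  refine ((LipschitzWith.projIcc (zero_le_one (α := ℝ))).dist_le_mul _ _).trans ?_
  have hQ := aux_Qr k
  have hQ1 : (1 : ℝ) ≤ (Q k : ℝ) := by exact_mod_cast Q_pos k
  rw [NNReal.coe_one, one_mul, Subtype.dist_eq, Real.dist_eq, Real.dist_eq, ← sub_div, abs_div,
    abs_of_pos hQ]
  have h1 : |((e : ℝ) + if ori k e then (t : ℝ) else 1 - (t : ℝ)) -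
      ((e : ℝ) + if ori k e then (t' : ℝ) else 1 - (t' : ℝ))| = |(t : ℝ) - (t' : ℝ)| := by
    cases h : ori k e
    · simp only [Bool.false_eq_true, if_false]
      rw [abs_sub_comm]
      congr 1
      ring
    · simp only [if_true]
      congr 1
      ring
  rw [h1, div_le_iff₀ hQ]
  have h2 := abs_nonneg ((t : ℝ) - (t' : ℝ))
  nlinarith

private theorem aux_exists (k a b : ℕ) (x : unitInterval) (hab : a < b) (hb : b ≤ 3 * Q k)
    (h1 : (a : ℝ) ≤ (x : ℝ) * (3 * (Q k : ℝ))) (h2 : (x : ℝ) * (3 * (Q k : ℝ)) ≤ (b : ℝ)) :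
    ∃ e t, a ≤ e ∧ e < b ∧ χ k e t = x := by
  have hQ := aux_Qr k
  have hx0 := x.2.1
  obtain ⟨e, he1, he2, he3, he4⟩ : ∃ e : ℕ, a ≤ e ∧ e < b ∧ (e : ℝ) ≤ (x : ℝ) * (3 * (Q k : ℝ)) ∧
      (x : ℝ) * (3 * (Q k : ℝ)) ≤ (e : ℝ) + 1 := by
    by_cases hc : (b : ℝ) - 1 ≤ (x : ℝ) * (3 * (Q k : ℝ))
    · refine ⟨b - 1, by omega, by omega, ?_, ?_⟩
      · rw [Nat.cast_sub (by omega)]; simpa using hc
      · rw [Nat.cast_sub (by omega)]; simpa using h2
    · have hpos : 0 ≤ (x : ℝ) * (3 * (Q k : ℝ)) := mul_nonneg hx0 hQ.le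
      refine ⟨⌊(x : ℝ) * (3 * (Q k : ℝ))⌋₊, Nat.le_floor h1, ?_, Nat.floor_le hpos,
        (Nat.lt_floor_add_one _).le⟩
      have h3 : (⌊(x : ℝ) * (3 * (Q k : ℝ))⌋₊ : ℝ) ≤ (x : ℝ) * (3 * (Q k : ℝ)) := Nat.floor_le hpos
      push Not at hc
      have h4 : (⌊(x : ℝ) * (3 * (Q k : ℝ))⌋₊ : ℝ) < (b : ℝ) := by linarith
      exact_mod_cast h4
  have hle : e < 3 * Q k := by omega
  cases ho : ori k e
  · refine ⟨e, ⟨1 - ((x : ℝ) * (3 * (Q k : ℝ)) - e), by linarith, by linarith⟩, he1, he2, ?_⟩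
    apply Subtype.ext
    rw [χ_coe k e _ hle, ho, if_neg (by decide), div_eq_iff hQ.ne']
    ring
  · refine ⟨e, ⟨(x : ℝ) * (3 * (Q k : ℝ)) - e, by linarith, by linarith⟩, he1, he2, ?_⟩
    apply Subtype.ext
    rw [χ_coe k e _ hle, ho, if_pos rfl, div_eq_iff hQ.ne']
    ring

theorem exists_χ_A (k : ℕ) (x : unitInterval) (hx : (x : ℝ) ≤ 2 / 3) :
    ∃ e t, e < 2 * Q k ∧ χ k e t = x := by
  have hQp := Q_pos k
  have hQ := aux_Qr k
  obtain ⟨e, t, -, h1, h2⟩ := aux_exists k 0 (2 * Q k) x (by omega) (by omega)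
    (by have := x.2.1; push_cast; positivity)
    (by push_cast; nlinarith)
  exact ⟨e, t, h1, h2⟩

theorem exists_χ_D (k : ℕ) (x : unitInterval) (hx : 2 / 3 ≤ (x : ℝ)) :
    ∃ n t, n < Q k ∧ χ k (2 * Q k + n) t = x := by
  have hQp := Q_pos k
  have hQ := aux_Qr k
  have hx1 := x.2.2
  obtain ⟨e, t, h0, h1, h2⟩ := aux_exists k (2 * Q k) (3 * Q k) x (by omega) le_rfl
    (by push_cast; nlinarith) (by push_cast; nlinarith)
  refine ⟨e - 2 * Q k, t, by omega, ?_⟩
  rw [show 2 * Q k + (e - 2 * Q k) = e by omega]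
  exact h2

theorem exists_χ (k : ℕ) (x : unitInterval) : ∃ e t, e < 3 * Q k ∧ χ k e t = x := by
  have hQp := Q_pos k
  have hQ := aux_Qr k
  have hx1 := x.2.2
  obtain ⟨e, t, -, h1, h2⟩ := aux_exists k 0 (3 * Q k) x (by omega) le_rfl
    (by have := x.2.1; push_cast; positivity)
    (by push_cast; nlinarith)
  exact ⟨e, t, h1, h2⟩

theorem χ_le (k e : ℕ) (t : unitInterval) (he : e < 2 * Q k) : (χ k e t : ℝ) ≤ 2 / 3 := by
  have hQp := Q_pos k
  have hQ := aux_Qr k
  rw [χ_coe k e t (by omega), div_le_iff₀ hQ]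
  have h2 := sl_le k e t
  unfold sl at h2
  have he' : (e : ℝ) + 1 ≤ 2 * (Q k : ℝ) := by exact_mod_cast he
  linarith

theorem le_χ (k n : ℕ) (t : unitInterval) : 2 / 3 ≤ (χ k (2 * Q k + n) t : ℝ) := by
  have hQ := aux_Qr k
  have h1 := sl_nonneg k (2 * Q k + n) t
  unfold sl at h1
  unfold χ
  rw [Set.coe_projIcc]
  refine le_max_of_le_right (le_min (by norm_num) ?_)
  rw [le_div_iff₀ hQ]
  push_cast
  have : (0 : ℝ) ≤ n := by positivity
  linarith

/-- the point `2/3` -/
noncomputable def tt : unitInterval := ⟨2 / 3, by norm_num, by norm_num⟩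

private theorem pt_coe (k v : ℕ) (hv : v ≤ 3 * Q k) : (pt k v : ℝ) = (v : ℝ) / (3 * (Q k : ℝ)) := by
  have hQ := aux_Qr k
  have hv' : (v : ℝ) ≤ 3 * (Q k : ℝ) := by exact_mod_cast hv
  unfold pt
  rw [Set.projIcc_of_mem]
  exact ⟨by positivity, by rw [div_le_one hQ]; exact hv'⟩

theorem pt_two_Q (k : ℕ) : pt k (2 * Q k) = tt := by
  have hQp := Q_pos k
  have hQ := aux_Qr k
  apply Subtype.ext
  rw [pt_coe k _ (by omega), div_eq_iff hQ.ne']
  unfold tt
  push_cast
  ring

theorem pt_zero (k : ℕ) : pt k 0 = 0 := by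
  apply Subtype.ext
  rw [pt_coe k _ (by omega)]
  simp

theorem pt_three_Q (k : ℕ) : pt k (3 * Q k) = 1 := by
  have hQ := aux_Qr k
  apply Subtype.ext
  rw [pt_coe k _ le_rfl, div_eq_iff hQ.ne']
  push_cast
  simp

private theorem v1_zero (k : ℕ) : v1 k 0 = 0 := by
  have hQp := Q_pos k
  have h : ori k 0 = false := by
    unfold ori
    rw [if_pos (by omega)]
    decide
  unfold v1
  rw [h, if_neg (by decide)]

private theorem v0_zero (k : ℕ) : v0 k 0 = 1 := by
  have hQp := Q_pos k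
  have h : ori k 0 = false := by
    unfold ori
    rw [if_pos (by omega)]
    decide
  unfold v0
  rw [h, if_neg (by decide)]

theorem χ_zero_one (k : ℕ) : χ k 0 1 = 0 := by
  rw [χ_one, v1_zero, pt_zero]

theorem χ_last_one (k : ℕ) : χ k (3 * Q k - 1) 1 = 1 := by
  have hQp := Q_pos k
  have hQo := Q_odd k
  have h : ori k (3 * Q k - 1) = true := by
    unfold ori
    rw [if_neg (by omega)]
    rw [decide_eq_true_eq]
    omega
  rw [χ_one]
  unfold v1
  rw [h, if_pos rfl, show 3 * Q k - 1 + 1 = 3 * Q k by omega, pt_three_Q]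

theorem χ_two_Q_zero (k : ℕ) : χ k (2 * Q k) 0 = tt := by
  have h : ori k (2 * Q k) = true := by
    unfold ori
    rw [if_neg (by omega)]
    rw [decide_eq_true_eq]
    omega
  rw [χ_zero]
  unfold v0
  rw [h, if_pos rfl, pt_two_Q]

theorem χ_two_Q_sub_one (k : ℕ) : χ k (2 * Q k - 1) 1 = tt := by
  have hQp := Q_pos k
  have h : ori k (2 * Q k - 1) = true := by
    unfold ori
    rw [if_pos (by omega)]
    rw [decide_eq_true_eq]
    omega
  rw [χ_one]
  unfold v1
  rw [h, if_pos rfl, show 2 * Q k - 1 + 1 = 2 * Q k by omega, pt_two_Q]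

private theorem aux_one (k e : ℕ) (t : unitInterval) (h : sl k e t = 1) :
    (t = 0 ∨ t = 1) ∧ (if t = 0 then v0 k e else v1 k e) = e + 1 := by
  unfold sl at h
  unfold v0 v1
  cases ho : ori k e
  · rw [ho, if_neg (by decide)] at h
    have ht : t = 0 := by
      apply Subtype.ext
      rw [Set.Icc.coe_zero]
      linarith
    subst ht
    simp
  · rw [ho, if_pos rfl] at h
    have ht : t = 1 := by
      apply Subtype.ext
      rw [Set.Icc.coe_one]
      linarith
    subst ht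
    simp

private theorem aux_zero (k e : ℕ) (t : unitInterval) (h : sl k e t = 0) :
    (t = 0 ∨ t = 1) ∧ (if t = 0 then v0 k e else v1 k e) = e := by
  unfold sl at h
  unfold v0 v1
  cases ho : ori k e
  · rw [ho, if_neg (by decide)] at h
    have ht : t = 1 := by
      apply Subtype.ext
      rw [Set.Icc.coe_one]
      linarith
    subst ht
    simp
  · rw [ho, if_pos rfl] at h
    have ht : t = 0 := by
      apply Subtype.ext
      rw [Set.Icc.coe_zero]
      linarith
    subst ht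
    simp

private theorem aux_sl (k e e' : ℕ) (t t' : unitInterval) (he : e < 3 * Q k) (he' : e' < 3 * Q k)
    (h : χ k e t = χ k e' t') : (e : ℝ) + sl k e t = (e' : ℝ) + sl k e' t' := by
  have hQ := aux_Qr k
  have h1 : (χ k e t : ℝ) = (χ k e' t' : ℝ) := by rw [h]
  rw [χ_coe k e t he, χ_coe k e' t' he', div_left_inj' hQ.ne'] at h1
  exact h1

/-- Two representations of one point: the same, or the point is a common vertex of the two cells. -/
theorem χ_eq (k e e' : ℕ) (t t' : unitInterval) (he : e < 3 * Q k) (he' : e' < 3 * Q k)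
    (h : χ k e t = χ k e' t') :
    (e = e' ∧ t = t') ∨ ((t = 0 ∨ t = 1) ∧ (t' = 0 ∨ t' = 1) ∧
      (if t = 0 then v0 k e else v1 k e) = (if t' = 0 then v0 k e' else v1 k e')) := by
  have h1 := aux_sl k e e' t t' he he' h
  have a1 := sl_nonneg k e t
  have a2 := sl_le k e t
  have b1 := sl_nonneg k e' t'
  have b2 := sl_le k e' t'
  rcases lt_trichotomy e e' with hlt | heq | hgt
  · right
    have hr : (e : ℝ) + 1 ≤ (e' : ℝ) := by exact_mod_cast hlt
    have s1 : sl k e t = 1 := by linarith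
    have s2 : sl k e' t' = 0 := by linarith
    obtain ⟨c1, c2⟩ := aux_one k e t s1
    obtain ⟨d1, d2⟩ := aux_zero k e' t' s2
    refine ⟨c1, d1, ?_⟩
    rw [c2, d2]
    have : (e : ℝ) + 1 = (e' : ℝ) := by linarith
    exact_mod_cast this
  · left
    refine ⟨heq, ?_⟩
    subst heq
    have h2 : sl k e t = sl k e t' := by linarith
    unfold sl at h2
    apply Subtype.ext
    cases ho : ori k e
    · rw [ho, if_neg (by decide), if_neg (by decide)] at h2
      linarith
    · rw [ho, if_pos rfl, if_pos rfl] at h2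
      exact h2
  · right
    have hr : (e' : ℝ) + 1 ≤ (e : ℝ) := by exact_mod_cast hgt
    have s1 : sl k e' t' = 1 := by linarith
    have s2 : sl k e t = 0 := by linarith
    obtain ⟨c1, c2⟩ := aux_one k e' t' s1
    obtain ⟨d1, d2⟩ := aux_zero k e t s2
    refine ⟨d1, c1, ?_⟩
    rw [c2, d2]
    have : (e' : ℝ) + 1 = (e : ℝ) := by linarith
    exact_mod_cast this.symm

/-- in `A`, a point whose coordinate is in `(0, 2/3)` has unique coordinates -/
theorem χ_inj_A (k e e' : ℕ) (t t' : unitInterval) (he : e < 3 * Q k) (he' : e' < 3 * Q k)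
    (ht0 : t ≠ 0) (ht1 : t ≠ 1) (h : χ k e t = χ k e' t') : e = e' ∧ t = t' := by
  rcases χ_eq k e e' t t' he he' h with h1 | ⟨h1, -, -⟩
  · exact h1
  · rcases h1 with h1 | h1
    · exact absurd h1 ht0
    · exact absurd h1 ht1

private theorem ori_D (k n : ℕ) : ori k (2 * Q k + n) = decide (n % 2 = 0) := by
  unfold ori
  rw [if_neg (by omega)]
  congr 1
  rw [eq_iff_iff]
  constructor <;> intro h <;> omega

/-- in `D`, a point whose coordinate is not `0` has unique coordinate `t` and unique `n / 2`. -/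
theorem χ_inj_D (k n n' : ℕ) (t t' : unitInterval) (hn : n < Q k) (hn' : n' < Q k) (ht : t ≠ 0)
    (h : χ k (2 * Q k + n) t = χ k (2 * Q k + n') t') : n / 2 = n' / 2 ∧ t = t' := by
  rcases χ_eq k _ _ t t' (by omega) (by omega) h with ⟨h1, h2⟩ | ⟨h1, h2, h3⟩
  · exact ⟨by rw [show n = n' by omega], h2⟩
  · have ht1 : t = 1 := h1.resolve_left ht
    have hv1 : ∀ m, v1 k (2 * Q k + m) = 2 * Q k + 2 * (m / 2) + 1 := by
      intro m
      unfold v1
      rw [ori_D]
      by_cases hm : m % 2 = 0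
      · rw [if_pos (by simpa using hm)]; omega
      · rw [if_neg (by simpa using hm)]; omega
    have hv0 : ∀ m, v0 k (2 * Q k + m) % 2 = 0 := by
      intro m
      unfold v0
      rw [ori_D]
      by_cases hm : m % 2 = 0
      · rw [if_pos (by simpa using hm)]; omega
      · rw [if_neg (by simpa using hm)]; omega
    rw [if_neg ht, hv1] at h3
    rcases h2 with h2 | h2
    · rw [if_pos h2] at h3
      have := hv0 n'
      omega
    · have hne : t' ≠ 0 := by rw [h2]; exact one_ne_zero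
      rw [if_neg hne, hv1] at h3
      exact ⟨by omega, by rw [ht1, h2]⟩

/-- the point `0` is the 1-end of cell `0`. -/
theorem χ_eq_zero (k e : ℕ) (t : unitInterval) (he : e < 3 * Q k) (h : χ k e t = 0) : t = 1 := by
  have hQp := Q_pos k
  have h' : χ k e t = χ k 0 1 := by rw [h, χ_zero_one]
  rcases χ_eq k e 0 t 1 he (by omega) h' with ⟨-, h1⟩ | ⟨h1, -, h3⟩
  · exact h1
  · rcases h1 with h1 | h1
    · exfalso
      rw [if_pos h1, if_neg one_ne_zero, v1_zero] at h3
      rcases Nat.eq_zero_or_pos e with h0 | h0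
      · rw [h0, v0_zero] at h3
        exact one_ne_zero h3
      · unfold v0 at h3
        split_ifs at h3; omega
    · exact h1

end Pool.Agent.MP_97b1c0_an.CP
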