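import Pool.Agent.MP_97b1c0_an.CP.Labels

set_option autoImplicit false

namespace Pool.Agent.MP_97b1c0_an.CP

open Set Function

/-! ## CP-2 walks -/

theorem Mk_decomp (k e : ℕ) : ∃ c, c ≤ k + 1 ∧
    Mk (k + 1) e = q (k + 1) * Mk k (e / q (k + 1)) + 2 * c :=
  ⟨((if (e / q (k + 1)) % 2 = 0 then e % q (k + 1) else q (k + 1) - 1 - e % q (k + 1)) / 2 + 1) %
    (k + 2), Nat.lt_succ_iff.1 (Nat.mod_lt _ (by omega)), rfl⟩

theorem div_q {m a k : ℕ} (ha : a < q k) : (q k * m + a) / q k = m := by
  rw [Nat.mul_add_div (by unfold q; omega), Nat.div_eq_of_lt ha, Nat.add_zero]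

theorem mod_q {m a k : ℕ} (ha : a < q k) : (q k * m + a) % q k = a := by
  rw [Nat.mul_add_mod, Nat.mod_eq_of_lt ha]

theorem w_a (k m c r : ℕ) (hc : c ≤ k + 1) (hr : r ≤ 2 * c + 1) :
    w (k + 1) (q (k + 1) * m + 2 * c) r = (q (k + 1) : ℤ) * m + 2 * c + 1 - r := by
  have h1 : r < q (k + 2) := by unfold q; omega
  have h2 : 2 * c < q (k + 1) := by unfold q; omega
  rw [w, if_pos (Nat.div_eq_of_lt h1), Nat.mod_eq_of_lt h1, mod_q h2, if_pos hr]
  push_cast
  ring

theorem w_b (k m c r : ℕ) (hc : c ≤ k + 1) (hr : 2 * c + 1 ≤ r) (hr' : r < q (k + 2)) :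
    w (k + 1) (q (k + 1) * m + 2 * c) r =
      (q (k + 1) : ℤ) * m + (((r - 2 * c - 1) % 2 : ℕ) : ℤ) := by
  have h2 : 2 * c < q (k + 1) := by unfold q; omega
  rw [w, if_pos (Nat.div_eq_of_lt hr'), Nat.mod_eq_of_lt hr', mod_q h2, div_q h2]
  split_ifs with h
  · have : r = 2 * c + 1 := by omega
    subst this
    have : 2 * c + 1 - 2 * c - 1 = 0 := by omega
    rw [this]
    push_cast
    ring
  · rfl

theorem w_c (k m c i r : ℕ) (hc : c ≤ k + 1) (hi : i ≠ 0) (hr : r ≤ q (k + 1)) :
    w (k + 1) (q (k + 1) * m + 2 * c) (q (k + 2) * i + r) =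
      (q (k + 1) : ℤ) * w k m i + (w k m (i + 1) - w k m i) * r := by
  have h1 : r < q (k + 2) := lt_of_le_of_lt hr (by unfold q; omega)
  have h2 : 2 * c < q (k + 1) := by unfold q; omega
  rw [w, mod_q h1, div_q h1, div_q h2, if_neg hi, if_pos hr]

theorem w_d (k m c i : ℕ) (hc : c ≤ k + 1) (hi : i ≠ 0) :
    w (k + 1) (q (k + 1) * m + 2 * c) (q (k + 2) * i + (q (k + 1) + 1)) =
      (q (k + 1) : ℤ) * w k m (i + 1) - (w k m (i + 1) - w k m i) := by
  have h1 : q (k + 1) + 1 < q (k + 2) := by unfold q; omega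
  have h2 : 2 * c < q (k + 1) := by unfold q; omega
  rw [w, mod_q h1, div_q h1, div_q h2, if_neg hi, if_neg (by omega)]

theorem w_zero (k e : ℕ) : w k (Mk k e) 0 = (Mk k e : ℤ) + 1 := by
  cases k with
  | zero => simp [w, Mk]
  | succ k =>
    obtain ⟨c, hc, h⟩ := Mk_decomp k e
    rw [h, w_a k _ c 0 hc (by omega)]
    push_cast
    ring

theorem w_one (k e : ℕ) : w k (Mk k e) 1 = (Mk k e : ℤ) := by
  cases k with
  | zero => simp [w, Mk]
  | succ k =>
    obtain ⟨c, hc, h⟩ := Mk_decomp k e
    rw [h, w_a k _ c 1 hc (by omega)]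
    push_cast
    ring

/-- the walk of level `k+1` follows the walk of level `k` -/
theorem w_key (k e j : ℕ)
    (hf : ∀ i, w k (Mk k (e / q (k + 1))) (i + 1) = w k (Mk k (e / q (k + 1))) i + 1 ∨
      w k (Mk k (e / q (k + 1))) (i + 1) = w k (Mk k (e / q (k + 1))) i - 1) :
    (w (k + 1) (Mk (k + 1) e) (j + 1) = w (k + 1) (Mk (k + 1) e) j + 1 ∨
      w (k + 1) (Mk (k + 1) e) (j + 1) = w (k + 1) (Mk (k + 1) e) j - 1) ∧
    (q (k + 1) : ℤ) * min (w k (Mk k (e / q (k + 1))) (j / q (k + 2)))
        (w k (Mk k (e / q (k + 1))) (j / q (k + 2) + 1)) ≤ w (k + 1) (Mk (k + 1) e) j ∧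
    w (k + 1) (Mk (k + 1) e) j ≤ (q (k + 1) : ℤ) * min (w k (Mk k (e / q (k + 1))) (j / q (k + 2)))
        (w k (Mk k (e / q (k + 1))) (j / q (k + 2) + 1)) + q (k + 1) ∧
    (q (k + 1) : ℤ) * min (w k (Mk k (e / q (k + 1))) (j / q (k + 2)))
        (w k (Mk k (e / q (k + 1))) (j / q (k + 2) + 1)) ≤ w (k + 1) (Mk (k + 1) e) (j + 1) ∧
    w (k + 1) (Mk (k + 1) e) (j + 1) ≤
      (q (k + 1) : ℤ) * min (w k (Mk k (e / q (k + 1))) (j / q (k + 2)))
        (w k (Mk k (e / q (k + 1))) (j / q (k + 2) + 1)) + q (k + 1) := by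
  have h0 := w_zero k (e / q (k + 1))
  have h1 := w_one k (e / q (k + 1))
  obtain ⟨c, hc, hM⟩ := Mk_decomp k e
  rw [hM]
  generalize Mk k (e / q (k + 1)) = m at *
  have hq : q (k + 1) = 2 * k + 3 := by unfold q; omega
  have hq' : q (k + 2) = q (k + 1) + 2 := by unfold q; omega
  obtain ⟨i, r, hr, rfl⟩ : ∃ i r, r < q (k + 2) ∧ j = q (k + 2) * i + r :=
    ⟨j / q (k + 2), j % q (k + 2), Nat.mod_lt _ (by unfold q; omega), (Nat.div_add_mod _ _).symm⟩
  rw [div_q hr]
  rcases Nat.eq_zero_or_pos i with hi | hi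
  · -- first block
    subst hi
    rw [Nat.mul_zero, Nat.zero_add, h1, h0, min_eq_right (by omega)]
    rcases Nat.lt_or_ge r (2 * c + 1) with hrc | hrc
    · rw [w_a k m c r hc hrc.le, w_a k m c (r + 1) hc hrc]
      generalize (q (k + 1) : ℤ) * (m : ℤ) = y
      push_cast
      omega
    · rw [w_b k m c r hc hrc hr]
      rcases Nat.lt_or_ge (r + 1) (q (k + 2)) with hr1 | hr1
      · rw [w_b k m c (r + 1) hc (by omega) hr1]
        generalize (q (k + 1) : ℤ) * (m : ℤ) = y
        omega
      · have hr2 : r + 1 = q (k + 2) * 1 + 0 := by omega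
        rw [hr2, w_c k m c 1 0 hc one_ne_zero (Nat.zero_le _), h1]
        generalize (q (k + 1) : ℤ) * (m : ℤ) = y
        have hr3 : (r - 2 * c - 1) % 2 = 1 := by omega
        rw [hr3]
        push_cast
        rw [mul_zero]
        omega
  · have hi' : i ≠ 0 := by omega
    have hfi := hf i
    rcases Nat.lt_or_ge r (q (k + 1)) with hr1 | hr1
    · rw [w_c k m c i r hc hi' hr1.le, Nat.add_assoc, w_c k m c i (r + 1) hc hi' hr1]
      rcases hfi with h | h
      · rw [h, min_eq_left (by omega)]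
        generalize (q (k + 1) : ℤ) * w k m i = y
        have e1 : w k m i + 1 - w k m i = 1 := by ring
        rw [e1]
        push_cast
        omega
      · rw [h, min_eq_right (by omega), mul_sub]
        generalize (q (k + 1) : ℤ) * w k m i = y
        have e1 : w k m i - 1 - w k m i = -1 := by ring
        rw [e1]
        push_cast
        omega
    · rcases Nat.lt_or_ge r (q (k + 1) + 1) with hr2 | hr2
      · have hr3 : r = q (k + 1) := by omega
        rw [hr3, w_c k m c i (q (k + 1)) hc hi' le_rfl, Nat.add_assoc, w_d k m c i hc hi']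
        rcases hfi with h | h
        · rw [h, min_eq_left (by omega), mul_add]
          generalize (q (k + 1) : ℤ) * w k m i = y
          have e1 : w k m i + 1 - w k m i = 1 := by ring
          rw [e1]
          omega
        · rw [h, min_eq_right (by omega), mul_sub]
          generalize (q (k + 1) : ℤ) * w k m i = y
          have e1 : w k m i - 1 - w k m i = -1 := by ring
          rw [e1]
          omega
      · have hr3 : r = q (k + 1) + 1 := by omega
        have hr4 : q (k + 2) * i + r + 1 = q (k + 2) * (i + 1) + 0 := by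
          rw [hr3, hq']; ring
        rw [hr4, hr3, w_d k m c i hc hi', w_c k m c (i + 1) 0 hc (by omega) (Nat.zero_le _)]
        rcases hfi with h | h
        · rw [h, min_eq_left (by omega), mul_add]
          generalize (q (k + 1) : ℤ) * w k m i = y
          have e1 : w k m i + 1 - w k m i = 1 := by ring
          rw [e1]
          push_cast
          rw [mul_zero]
          omega
        · rw [h, min_eq_right (by omega), mul_sub]
          generalize (q (k + 1) : ℤ) * w k m i = y
          have e1 : w k m i - 1 - w k m i = -1 := by ring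
          rw [e1]
          push_cast
          rw [mul_zero]
          omega

/-- Induction on `k`, all `e`, `j`. -/
theorem w_step (k e j : ℕ) :
    w k (Mk k e) (j + 1) = w k (Mk k e) j + 1 ∨ w k (Mk k e) (j + 1) = w k (Mk k e) j - 1 := by
  induction k generalizing e j with
  | zero => simp only [w]; omega
  | succ k ih => exact (w_key k e j (ih _)).1

theorem w_nonneg (k e j : ℕ) : 0 ≤ w k (Mk k e) j := by
  induction k generalizing e j with
  | zero => simp only [w]; omega
  | succ k ih =>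
    refine le_trans ?_ (w_key k e j (w_step k _)).2.1
    exact mul_nonneg (by positivity) (le_min (ih _ _) (ih _ _))

theorem w_le (k e j : ℕ) : w k (Mk k e) j ≤ (Q k : ℤ) := by
  induction k generalizing e j with
  | zero => simp only [w, Q]; omega
  | succ k ih =>
    refine le_trans (w_key k e j (w_step k _)).2.2.1 ?_
    have h1 := w_step k (e / q (k + 1)) (j / q (k + 2))
    have h2 := ih (e / q (k + 1)) (j / q (k + 2))
    have h3 := ih (e / q (k + 1)) (j / q (k + 2) + 1)
    have h4 : min (w k (Mk k (e / q (k + 1))) (j / q (k + 2)))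
        (w k (Mk k (e / q (k + 1))) (j / q (k + 2) + 1)) + 1 ≤ (Q k : ℤ) := by omega
    have h5 : (q (k + 1) : ℤ) * (min (w k (Mk k (e / q (k + 1))) (j / q (k + 2)))
        (w k (Mk k (e / q (k + 1))) (j / q (k + 2) + 1)) + 1) ≤ q (k + 1) * (Q k : ℤ) :=
      mul_le_mul_of_nonneg_left h4 (by positivity)
    rw [mul_add, mul_one] at h5
    refine le_trans h5 (le_of_eq ?_)
    rw [Q]; push_cast; ring

theorem w_Q (k e : ℕ) : w k (Mk k e) (Q (k + 1)) = 0 := by
  induction k generalizing e with
  | zero => simp [w, Q, q]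
  | succ k ih =>
    obtain ⟨c, hc, h⟩ := Mk_decomp k e
    have h1 : Q (k + 1 + 1) = q (k + 2) * Q (k + 1) + 0 := by
      rw [Q, Nat.mul_comm]; rfl
    rw [h, h1, w_c k _ c _ 0 hc (Q_pos _).ne' (Nat.zero_le _), ih]
    simp

theorem w_two_Q (k e : ℕ) : w k (Mk k e) (2 * Q (k + 1)) = (Q k : ℤ) := by
  induction k generalizing e with
  | zero => simp [w, Q, q]
  | succ k ih =>
    obtain ⟨c, hc, h⟩ := Mk_decomp k e
    have h1 : 2 * Q (k + 1 + 1) = q (k + 2) * (2 * Q (k + 1)) + 0 := by
      rw [Q]; show 2 * (Q (k + 1) * q (k + 2)) = _; ring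
    have h2 := Q_pos (k + 1)
    rw [h, h1, w_c k _ c _ 0 hc (by omega) (Nat.zero_le _), ih, Q]
    push_cast
    ring

/-- from `w_zero`, `Mk_even`, `w_step`. -/
theorem w_parity (k e j : ℕ) : w k (Mk k e) j % 2 = ((j : ℤ) + 1) % 2 := by
  induction j with
  | zero =>
    rw [w_zero]
    have := Mk_even k e
    push_cast
    omega
  | succ j ih =>
    have := w_step k e j
    push_cast
    omega

theorem hk_coe (k e j : ℕ) :
    (hk k (Mk k e) j : ℤ) = min (w k (Mk k e) j) (w k (Mk k e) (j + 1)) := by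
  rw [hk, Int.toNat_of_nonneg (le_min (w_nonneg _ _ _) (w_nonneg _ _ _))]

theorem hk_lt (k e j : ℕ) : hk k (Mk k e) j < Q k := by
  have h := hk_coe k e j
  have h1 := w_step k e j
  have h2 := w_le k e j
  have h3 := w_le k e (j + 1)
  omega

theorem hk_zero (k e : ℕ) : hk k (Mk k e) 0 = Mk k e := by
  have h := hk_coe k e 0
  have h1 := w_zero k e
  have h2 := w_one k e
  rw [Nat.zero_add] at h
  omega

/-- With `q = q (k+1)`, `q' = q (k+2)`, `j = q' i + r`, `h = hk k (Mk k (e/q)) i`: both `w (k+1) M j` and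
`w (k+1) M (j+1)` lie in `[q h, q (h+1)]` and differ by 1. -/
theorem hk_div (k e j : ℕ) :
    hk (k + 1) (Mk (k + 1) e) j / q (k + 1) = hk k (Mk k (e / q (k + 1))) (j / q (k + 2)) := by
  obtain ⟨h1, h2, h3, h4, h5⟩ := w_key k e j (w_step k _)
  rw [← hk_coe] at h2 h3 h4 h5
  have h6 := hk_coe (k + 1) e j
  have hq : 0 < q (k + 1) := by unfold q; omega
  rw [Nat.div_eq_iff hq, Nat.mul_comm]
  generalize hk k (Mk k (e / q (k + 1))) (j / q (k + 2)) = h at *
  have h7 : ((q (k + 1) * h : ℕ) : ℤ) = (q (k + 1) : ℤ) * h := by push_cast; ring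
  rw [← h7] at h2 h3 h4 h5
  constructor <;> omega

/-- `hk k M j < Q k`, so it is oriented positively iff odd; its 0-end is the odd one of the two consecutive
vertices `w j, w (j+1)`. -/
theorem v0_hk (k e j : ℕ) :
    (v0 k (hk k (Mk k e) j) : ℤ) = w k (Mk k e) (j + j % 2) := by
  have h := hk_coe k e j
  have h1 := hk_lt k e j
  have h2 := w_step k e j
  have h3 := w_parity k e j
  have h4 : hk k (Mk k e) j < 2 * Q k := by omega
  rw [v0, ori, if_pos h4]
  rcases Nat.mod_two_eq_zero_or_one j with hj | hj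
  · rw [hj, Nat.add_zero j]
    by_cases h5 : hk k (Mk k e) j % 2 = 1
    · simp only [h5, decide_true, if_true]; omega
    · simp only [h5, decide_false, Bool.false_eq_true, if_false]; push_cast; omega
  · rw [hj]
    by_cases h5 : hk k (Mk k e) j % 2 = 1
    · simp only [h5, decide_true, if_true]; omega
    · simp only [h5, decide_false, Bool.false_eq_true, if_false]; push_cast; omega

theorem v1_hk (k e j : ℕ) :
    (v1 k (hk k (Mk k e) j) : ℤ) = w k (Mk k e) (j + 1 - j % 2) := by
  have h := hk_coe k e j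
  have h1 := hk_lt k e j
  have h2 := w_step k e j
  have h3 := w_parity k e j
  have h4 : hk k (Mk k e) j < 2 * Q k := by omega
  rw [v1, ori, if_pos h4]
  rcases Nat.mod_two_eq_zero_or_one j with hj | hj
  · rw [hj, Nat.sub_zero]
    by_cases h5 : hk k (Mk k e) j % 2 = 1
    · simp only [h5, decide_true, if_true]; push_cast; omega
    · simp only [h5, decide_false, Bool.false_eq_true, if_false]; omega
  · rw [hj, Nat.add_sub_cancel]
    by_cases h5 : hk k (Mk k e) j % 2 = 1
    · simp only [h5, decide_true, if_true]; push_cast; omega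
    · simp only [h5, decide_false, Bool.false_eq_true, if_false]; omega

/-- the same cell number shifted by `2 * Q k` (a cell in `D`): positively oriented iff even. -/
theorem v0_two_Q_add_hk (k e j : ℕ) :
    (v0 k (2 * Q k + hk k (Mk k e) j) : ℤ) = 2 * (Q k : ℤ) + w k (Mk k e) (j + 1 - j % 2) := by
  have h := hk_coe k e j
  have h1 := hk_lt k e j
  have h2 := w_step k e j
  have h3 := w_parity k e j
  have h4 : ¬ (2 * Q k + hk k (Mk k e) j < 2 * Q k) := by omega
  rw [v0, ori, if_neg h4]
  rcases Nat.mod_two_eq_zero_or_one j with hj | hj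
  · rw [hj, Nat.sub_zero]
    by_cases h5 : (2 * Q k + hk k (Mk k e) j) % 2 = 0
    · simp only [h5, decide_true, if_true]; push_cast; omega
    · simp only [h5, decide_false, Bool.false_eq_true, if_false]; push_cast; omega
  · rw [hj, Nat.add_sub_cancel]
    by_cases h5 : (2 * Q k + hk k (Mk k e) j) % 2 = 0
    · simp only [h5, decide_true, if_true]; push_cast; omega
    · simp only [h5, decide_false, Bool.false_eq_true, if_false]; push_cast; omega

theorem v1_two_Q_add_hk (k e j : ℕ) :
    (v1 k (2 * Q k + hk k (Mk k e) j) : ℤ) = 2 * (Q k : ℤ) + w k (Mk k e) (j + j % 2) := by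
  have h := hk_coe k e j
  have h1 := hk_lt k e j
  have h2 := w_step k e j
  have h3 := w_parity k e j
  have h4 : ¬ (2 * Q k + hk k (Mk k e) j < 2 * Q k) := by omega
  rw [v1, ori, if_neg h4]
  rcases Nat.mod_two_eq_zero_or_one j with hj | hj
  · rw [hj, Nat.add_zero j]
    by_cases h5 : (2 * Q k + hk k (Mk k e) j) % 2 = 0
    · simp only [h5, decide_true, if_true]; push_cast; omega
    · simp only [h5, decide_false, Bool.false_eq_true, if_false]; push_cast; omega
  · rw [hj]
    by_cases h5 : (2 * Q k + hk k (Mk k e) j) % 2 = 0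
    · simp only [h5, decide_true, if_true]; push_cast; omega
    · simp only [h5, decide_false, Bool.false_eq_true, if_false]; push_cast; omega

end Pool.Agent.MP_97b1c0_an.CP
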