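import Pool.Agent.MP_97b1c0_an.CP.Charts
import Pool.Agent.MP_97b1c0_an.CP.Walks

set_option autoImplicit false

namespace Pool.Agent.MP_97b1c0_an.CP

open Set Function

/-! ## CP-8 intertwining -/

theorem Inter_q_pos (k : ℕ) : 0 < q k := by unfold q; omega

theorem Inter_two (k n : ℕ) : (2 * Q (k + 1) + n) / q (k + 1) = 2 * Q k + n / q (k + 1) := by
  have h : 2 * Q (k + 1) + n = n + q (k + 1) * (2 * Q k) := by
    show 2 * (Q k * q (k + 1)) + n = n + q (k + 1) * (2 * Q k)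
    ring
  rw [h, Nat.add_mul_div_left _ _ (Inter_q_pos _), add_comm]

theorem Inter_lt (k c n : ℕ) (h : n < c * Q (k + 1)) : n / q (k + 1) < c * Q k := by
  rw [Nat.div_lt_iff_lt_mul (Inter_q_pos _)]
  have : c * Q (k + 1) = c * Q k * q (k + 1) := by
    show c * (Q k * q (k + 1)) = c * Q k * q (k + 1)
    ring
  omega

theorem Inter_refl (k j : ℕ) (h : j < 2 * Q (k + 1)) :
    (2 * Q (k + 1) - 1 - j) / q (k + 1) = 2 * Q k - 1 - j / q (k + 1) := by
  have hq := Inter_q_pos (k + 1)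
  have h1 : 2 * Q (k + 1) = 2 * Q k * q (k + 1) := by
    show 2 * (Q k * q (k + 1)) = 2 * Q k * q (k + 1)
    ring
  have h2 := Inter_lt k 2 j h
  have h3 := Nat.div_add_mod j (q (k + 1))
  have h4 := Nat.mod_lt j hq
  rw [h1]
  set a := 2 * Q k with ha
  set b := q (k + 1) with hb
  set d := j / b with hd
  set r := j % b with hr
  obtain ⟨c, hc⟩ : ∃ c, a = d + 1 + c := ⟨a - (d + 1), by omega⟩
  have h5 : a * b - 1 - j = (b - 1 - r) + b * c := by
    have : a * b = b * d + b + b * c := by rw [hc]; ring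
    omega
  rw [h5, Nat.add_mul_div_left _ _ hq, Nat.div_eq_of_lt (by omega)]
  omega

/-- contrapositive: `2/3 ≤ t` gives `t = χ (k+1) (2 Q (k+1) + n) s`, and `(2 Q (k+1) + n) / q = 2 Q k + n / q`. -/
theorem zeta_lt {ζ : ℕ → C(unitInterval, unitInterval)} (hζ : ZetaSpec ζ) (k : ℕ) (t : unitInterval)
    (h : (ζ k t : ℝ) < 2 / 3) : (t : ℝ) < 2 / 3 := by
  by_contra hc
  obtain ⟨n, s, hn, rfl⟩ := exists_χ_D (k + 1) t (not_lt.1 hc)
  rw [hζ.eqn k _ s (by omega), Inter_two] at h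
  exact absurd (le_χ k _ _) (not_le.2 h)

theorem lt_zeta {ζ : ℕ → C(unitInterval, unitInterval)} (hζ : ZetaSpec ζ) (k : ℕ) (t : unitInterval)
    (h : 2 / 3 < (ζ k t : ℝ)) : 2 / 3 < (t : ℝ) := by
  by_contra hc
  obtain ⟨e, s, he, rfl⟩ := exists_χ_A (k + 1) t (not_lt.1 hc)
  rw [hζ.eqn k _ s (by omega)] at h
  exact absurd (χ_le k _ _ (Inter_lt k 2 e he)) (not_le.2 h)

theorem Inter_dist_le_one (x y : unitInterval) : dist x y ≤ 1 := by
  rw [Subtype.dist_eq, Real.dist_eq]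
  exact abs_sub_le_iff.2 ⟨by linarith [x.2.2, y.2.1], by linarith [y.2.2, x.2.1]⟩

theorem Inter_eq_of_dist (x y : unitInterval) (h : ∀ n : ℕ, dist x y ≤ (1 / 3 : ℝ) ^ n) :
    x = y := by
  apply dist_le_zero.1
  refine ge_of_tendsto' (tendsto_pow_atTop_nhds_zero_of_lt_one (r := (1 / 3 : ℝ)) (by norm_num)
    (by norm_num)) h

/-- Prove `∀ n k t, dist (Γ k (ζ k t)) (ζ k (Γ (k+1) t)) ≤ (1/3)^n` by induction on `n` (`dist ≤ 1` for
`n = 0`). Write `t = χ (k+1) e x`. If `e ≥ 2 Q (k+1)` both sides are `ζ k (ζ (k+1) x)`. If `e < 2 Q (k+1)` and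
`x ≤ 2/3`: `Γ k (ζ k t) = Γ k (χ k (e/q) (ζ (k+1) x)) = χ k (Mk k (e/q)) (Γ (k+1) (ζ (k+1) x))` (as
`ζ (k+1) x ≤ 2/3`) and `ζ k (Γ (k+1) t) = ζ k (χ (k+1) (Mk (k+1) e) (Γ (k+2) x)) =
χ k (Mk (k+1) e / q) (ζ (k+1) (Γ (k+2) x))`; use `Mk_div`, `χ_dist`, induction. If `x = χ (k+2) (2 Q (k+2) + j) s`:
both are `χ k _ (ζ (k+1) (ζ (k+2) s))` with the cells `hk k (Mk k (e/q)) (j / q (k+2))` and
`hk (k+1) (Mk (k+1) e) j / q (k+1)`, equal by `hk_div`. -/
theorem gamma_zeta {ζ Γ : ℕ → C(unitInterval, unitInterval)} (hζ : ZetaSpec ζ) (hΓ : GammaSpec ζ Γ)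
    (k : ℕ) (t : unitInterval) : Γ k (ζ k t) = ζ k (Γ (k + 1) t) := by
  have main : ∀ (n k : ℕ) (t : unitInterval),
      dist (Γ k (ζ k t)) (ζ k (Γ (k + 1) t)) ≤ (1 / 3 : ℝ) ^ n := by
    intro n
    induction n with
    | zero => intro k t; simpa using Inter_dist_le_one _ _
    | succ n ih =>
      intro k t
      obtain ⟨e, x, he, rfl⟩ := exists_χ (k + 1) t
      by_cases h2 : 2 * Q (k + 1) ≤ e
      · obtain ⟨m, rfl⟩ : ∃ m, e = 2 * Q (k + 1) + m := ⟨e - 2 * Q (k + 1), by omega⟩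
        have hm := Inter_lt k 3 _ he
        rw [Inter_two] at hm
        rw [hζ.eqn k _ x he, Inter_two, hΓ.inactive k _ _ (Nat.le_add_right _ _) hm,
          hΓ.inactive (k + 1) _ _ h2 he, dist_self]
        positivity
      · have h2' := not_le.1 h2
        have he2 := Inter_lt k 2 e h2'
        rw [hζ.eqn k _ x he]
        by_cases hx : (x : ℝ) ≤ 2 / 3
        · have hx' : (ζ (k + 1) x : ℝ) ≤ 2 / 3 := by
            by_contra hc
            exact absurd (lt_zeta hζ (k + 1) x (not_le.1 hc)) (not_lt.2 hx)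
          have hMk := Mk_lt (k + 1) e
          rw [hΓ.active k _ _ he2 hx', hΓ.active (k + 1) _ _ h2' hx, hζ.eqn k _ _ (by omega),
            Mk_div]
          calc dist (χ k (Mk k (e / q (k + 1))) (Γ (k + 1) (ζ (k + 1) x)))
                (χ k (Mk k (e / q (k + 1))) (ζ (k + 1) (Γ (k + 1 + 1) x)))
              ≤ 1 / 3 * dist (Γ (k + 1) (ζ (k + 1) x)) (ζ (k + 1) (Γ (k + 1 + 1) x)) :=
                χ_dist _ _ _ _
            _ ≤ 1 / 3 * (1 / 3 : ℝ) ^ n := by
                apply mul_le_mul_of_nonneg_left (ih (k + 1) x) (by norm_num)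
            _ = (1 / 3 : ℝ) ^ (n + 1) := by ring
        · obtain ⟨j, s, hj, rfl⟩ := exists_χ_D (k + 1 + 1) x (not_le.1 hx).le
          have hj2 : j / q (k + 1 + 1) < Q (k + 1) := by
            have := Inter_lt (k + 1) 1 j (by omega)
            omega
          have hh := hk_lt (k + 1) e j
          rw [hζ.eqn (k + 1) _ s (by omega), Inter_two, hΓ.walk k _ _ _ he2 hj2,
            hΓ.walk (k + 1) _ _ _ h2' hj, hζ.eqn k _ _ (by omega), hk_div, dist_self]
          positivity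
  exact Inter_eq_of_dist _ _ fun n => main n k t

/-- Same, with `(2 Q (k+2) - 1 - j) / q (k+2) = 2 Q (k+1) - 1 - j / q (k+2)` for `j < 2 Q (k+2)`. -/
theorem delta_zeta {ζ Δ : ℕ → C(unitInterval, unitInterval)} (hζ : ZetaSpec ζ) (hΔ : DeltaSpec ζ Δ)
    (k : ℕ) (t : unitInterval) : Δ k (ζ k t) = ζ k (Δ (k + 1) t) := by
  have main : ∀ (n k : ℕ) (t : unitInterval),
      dist (Δ k (ζ k t)) (ζ k (Δ (k + 1) t)) ≤ (1 / 3 : ℝ) ^ n := by
    intro n
    induction n with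
    | zero => intro k t; simpa using Inter_dist_le_one _ _
    | succ n ih =>
      intro k t
      obtain ⟨e, x, he, rfl⟩ := exists_χ (k + 1) t
      by_cases h2 : 2 * Q (k + 1) ≤ e
      · obtain ⟨m, rfl⟩ : ∃ m, e = 2 * Q (k + 1) + m := ⟨e - 2 * Q (k + 1), by omega⟩
        have hm1 : m < Q (k + 1) := by omega
        have hm : m / q (k + 1) < Q k := by
          have := Inter_lt k 1 m (by omega)
          omega
        rw [hζ.eqn k _ x he, Inter_two]
        by_cases hx : 2 / 3 ≤ (x : ℝ)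
        · have hx' : 2 / 3 ≤ (ζ (k + 1) x : ℝ) := by
            by_contra hc
            exact absurd (zeta_lt hζ (k + 1) x (not_le.1 hc)) (not_lt.2 hx)
          have hMk := Mk_lt (k + 1) m
          rw [hΔ.active k _ _ hm hx', hΔ.active (k + 1) _ _ hm1 hx, hζ.eqn k _ _ (by omega),
            Inter_two, Mk_div]
          calc dist (χ k (2 * Q k + Mk k (m / q (k + 1))) (Δ (k + 1) (ζ (k + 1) x)))
                (χ k (2 * Q k + Mk k (m / q (k + 1))) (ζ (k + 1) (Δ (k + 1 + 1) x)))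
              ≤ 1 / 3 * dist (Δ (k + 1) (ζ (k + 1) x)) (ζ (k + 1) (Δ (k + 1 + 1) x)) :=
                χ_dist _ _ _ _
            _ ≤ 1 / 3 * (1 / 3 : ℝ) ^ n := by
                apply mul_le_mul_of_nonneg_left (ih (k + 1) x) (by norm_num)
            _ = (1 / 3 : ℝ) ^ (n + 1) := by ring
        · obtain ⟨j, s, hj, rfl⟩ := exists_χ_A (k + 1 + 1) x (not_le.1 hx).le
          have hj2 : j / q (k + 1 + 1) < 2 * Q (k + 1) := Inter_lt (k + 1) 2 j hj
          have hh := hk_lt (k + 1) m (2 * Q (k + 1 + 1) - 1 - j)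
          rw [hζ.eqn (k + 1) _ s (by omega), hΔ.walk k _ _ _ hm hj2,
            hΔ.walk (k + 1) _ _ _ hm1 hj, hζ.eqn k _ _ (by omega), Inter_two, hk_div,
            Inter_refl (k + 1) j hj, dist_self]
          positivity
      · have h2' := not_le.1 h2
        have he2 := Inter_lt k 2 e h2'
        rw [hζ.eqn k _ x he, hΔ.inactive k _ _ he2, hΔ.inactive (k + 1) _ _ h2', dist_self]
        positivity
  exact Inter_eq_of_dist _ _ fun n => main n k t

end Pool.Agent.MP_97b1c0_an.CP
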