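import Pool.Agent.MP_97b1c0_an.CP.Charts
import Pool.Agent.MP_97b1c0_an.CP.Walks
import Pool.Agent.MP_97b1c0_an.CP.Inter

set_option autoImplicit false

namespace Pool.Agent.MP_97b1c0_an.CP

open Set Function

/-- `x = χ 0 e t`. If `e < 2`: `Γ 0 (χ 0 e t) = χ 0 0 (Γ 1 t)` for all `t` (both if `t ≤ 2/3` and if
`t = χ 1 (2 Q 1 + j) s`, since all labels and edges of level 0 are `0`), so
`Δ 0 (Γ 0 x) = ζ 0 (Γ 1 t) = Γ 0 (ζ 0 t) = Γ 0 (Δ 0 x)`. If `e = 2`: `Δ 0 (χ 0 2 t) = χ 0 2 (Δ 1 t)` for all `t`,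
so `Γ 0 (Δ 0 x) = ζ 0 (Δ 1 t) = Δ 0 (ζ 0 t) = Δ 0 (Γ 0 x)`. -/
theorem commute {ζ Γ Δ : ℕ → C(unitInterval, unitInterval)} (hζ : ZetaSpec ζ) (hΓ : GammaSpec ζ Γ)
    (hΔ : DeltaSpec ζ Δ) (x : unitInterval) : Δ 0 (Γ 0 x) = Γ 0 (Δ 0 x) := by
  have hQ0 : Q 0 = 1 := rfl
  have hk0 : ∀ e j, hk 0 (Mk 0 e) j = 0 := fun e j => by
    have := hk_lt 0 e j
    omega
  have hMk0 : ∀ e, Mk 0 e = 0 := fun e => by
    have := Mk_lt 0 e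
    omega
  obtain ⟨e, t, he, rfl⟩ := exists_χ 0 x
  by_cases h2 : e < 2 * Q 0
  · have h3 : Γ 0 (χ 0 e t) = χ 0 0 (Γ 1 t) := by
      by_cases ht : (t : ℝ) ≤ 2 / 3
      · rw [hΓ.active 0 _ _ h2 ht, hMk0]
      · obtain ⟨j, s, hj, rfl⟩ := exists_χ_D 1 t (not_le.1 ht).le
        rw [hΓ.walk 0 _ _ _ h2 hj, hk0, hΓ.inactive 1 _ _ (by omega) (by omega)]
    rw [h3, hΔ.inactive 0 _ _ (by omega), hΔ.inactive 0 _ _ h2, gamma_zeta hζ hΓ]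
  · obtain rfl : e = 2 * Q 0 + 0 := by omega
    have h3 : Δ 0 (χ 0 (2 * Q 0 + 0) t) = χ 0 (2 * Q 0) (Δ 1 t) := by
      by_cases ht : 2 / 3 ≤ (t : ℝ)
      · rw [hΔ.active 0 _ _ (by omega) ht, hMk0, add_zero]
      · obtain ⟨j, s, hj, rfl⟩ := exists_χ_A 1 t (not_le.1 ht).le
        rw [hΔ.walk 0 _ _ _ (by omega) hj, hk0, hΔ.inactive 1 _ _ hj, add_zero]
    rw [h3, hΓ.inactive 0 _ _ (by omega) (by omega), hΓ.inactive 0 _ _ (by omega) (by omega),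
      delta_zeta hζ hΔ]

end Pool.Agent.MP_97b1c0_an.CP
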