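import Mathlib

/-!
# A counterexample to the common periodic point problem: definitions

`T_k = [0,1]` is cut into `3 * Q k` equal cells; the cells `e < 2 * Q k` fill `A = [0, 2/3]`, the others fill
`D = [2/3, 1]`.  `χ k e : T_{k+1} → T_k` is the affine chart of cell `e`, increasing iff `ori k e`.
-/

set_option autoImplicit false

namespace Pool.Agent.MP_97b1c0_an.CP

/-- `q k = 2k+1`. -/
def q (k : ℕ) : ℕ := 2 * k + 1

/-- `Q k = q 1 * ... * q k`. -/
def Q : ℕ → ℕ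
  | 0 => 1
  | (k + 1) => Q k * q (k + 1)

/-- Cell `e` of `T_k` is oriented positively iff `e` is odd (`e < 2 Q k`), resp. even (`e ≥ 2 Q k`). -/
def ori (k e : ℕ) : Bool := decide (e % 2 = if e < 2 * Q k then 1 else 0)

/-- the vertex of `T_k` at the end `t = 0` of cell `e` -/
def v0 (k e : ℕ) : ℕ := if ori k e then e else e + 1

/-- the vertex of `T_k` at the end `t = 1` of cell `e` -/
def v1 (k e : ℕ) : ℕ := if ori k e then e + 1 else e

/-- the vertex number `v` of `T_k` (`0 ≤ v ≤ 3 * Q k`), a point of `[0,1]` -/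
noncomputable def pt (k v : ℕ) : unitInterval :=
  Set.projIcc 0 1 zero_le_one ((v : ℝ) / (3 * (Q k : ℝ)))

/-- the chart of cell `e` of `T_k` (meaningful for `e < 3 * Q k`) -/
noncomputable def χ (k e : ℕ) (t : unitInterval) : unitInterval :=
  Set.projIcc 0 1 zero_le_one (((e : ℝ) + if ori k e then (t : ℝ) else 1 - (t : ℝ)) / (3 * (Q k : ℝ)))

/-- The label map. -/
def Mk : ℕ → ℕ → ℕ
  | 0, _ => 0
  | (k + 1), e =>
    q (k + 1) * Mk k (e / q (k + 1)) +
      2 * (((if (e / q (k + 1)) % 2 = 0 then e % q (k + 1) else q (k + 1) - 1 - e % q (k + 1)) / 2 + 1)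
        % (k + 2))

/-- The walk `w k M : ℕ → ℤ` (meaningful for `M` a value of `Mk k`). -/
def w : ℕ → ℕ → ℕ → ℤ
  | 0, _, j => (((j + 1) % 2 : ℕ) : ℤ)
  | (k + 1), M, j =>
    if j / q (k + 2) = 0 then
      (if j % q (k + 2) ≤ M % q (k + 1) + 1 then (M : ℤ) + 1 - ((j % q (k + 2) : ℕ) : ℤ)
       else (q (k + 1) : ℤ) * ((M / q (k + 1) : ℕ) : ℤ)
          + (((j % q (k + 2) - M % q (k + 1) - 1) % 2 : ℕ) : ℤ))
    else if j % q (k + 2) ≤ q (k + 1) then
      (q (k + 1) : ℤ) * w k (M / q (k + 1)) (j / q (k + 2))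
        + (w k (M / q (k + 1)) (j / q (k + 2) + 1) - w k (M / q (k + 1)) (j / q (k + 2)))
          * ((j % q (k + 2) : ℕ) : ℤ)
    else
      (q (k + 1) : ℤ) * w k (M / q (k + 1)) (j / q (k + 2) + 1)
        - (w k (M / q (k + 1)) (j / q (k + 2) + 1) - w k (M / q (k + 1)) (j / q (k + 2)))

/-- The edge (cell) between the consecutive vertices `w k M j` and `w k M (j+1)`. -/
def hk (k M j : ℕ) : ℕ := (min (w k M j) (w k M (j + 1))).toNat

/-- Defining properties of the family `ζ k : T_{k+1} → T_k`. -/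
structure ZetaSpec (ζ : ℕ → C(unitInterval, unitInterval)) : Prop where
  zero : ∀ k, ζ k 0 = 0
  one : ∀ k, ζ k 1 = 1
  eqn : ∀ k e t, e < 3 * Q (k + 1) → ζ k (χ (k + 1) e t) = χ k (e / q (k + 1)) (ζ (k + 1) t)

/-- Defining properties of the family `Γ k : T_k → T_k` (`G = Γ 0`). -/
structure GammaSpec (ζ Γ : ℕ → C(unitInterval, unitInterval)) : Prop where
  inactive : ∀ k e t, 2 * Q k ≤ e → e < 3 * Q k → Γ k (χ k e t) = ζ k t
  active : ∀ k e (t : unitInterval), e < 2 * Q k → (t : ℝ) ≤ 2 / 3 →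
    Γ k (χ k e t) = χ k (Mk k e) (Γ (k + 1) t)
  walk : ∀ k e j s, e < 2 * Q k → j < Q (k + 1) →
    Γ k (χ k e (χ (k + 1) (2 * Q (k + 1) + j) s)) = χ k (hk k (Mk k e) j) (ζ (k + 1) s)

/-- Defining properties of the family `Δ k : T_k → T_k` (`F = Δ 0`). -/
structure DeltaSpec (ζ Δ : ℕ → C(unitInterval, unitInterval)) : Prop where
  inactive : ∀ k e t, e < 2 * Q k → Δ k (χ k e t) = ζ k t
  active : ∀ k n (t : unitInterval), n < Q k → 2 / 3 ≤ (t : ℝ) →
    Δ k (χ k (2 * Q k + n) t) = χ k (2 * Q k + Mk k n) (Δ (k + 1) t)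
  walk : ∀ k n j s, n < Q k → j < 2 * Q (k + 1) →
    Δ k (χ k (2 * Q k + n) (χ (k + 1) j s)) =
      χ k (2 * Q k + hk k (Mk k n) (2 * Q (k + 1) - 1 - j)) (ζ (k + 1) s)

end Pool.Agent.MP_97b1c0_an.CP
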