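import Pool.Agent.MP_97b1c0_an.CP.Defs

set_option autoImplicit false

namespace Pool.Agent.MP_97b1c0_an.CP

open Set Function

/-! ## CP-4 fixed families -/

/-- Banach for a sequence of contractions `Op k : S_{k+1} → S_k`. -/
theorem exists_family {Y : Type*} [MetricSpace Y] [CompleteSpace Y] (S : Set Y) (hS : IsClosed S)
    (hne : S.Nonempty) (C : ℝ) (hC : ∀ y y' : Y, dist y y' ≤ C) (Op : ℕ → Y → Y)
    (hmaps : ∀ k, ∀ y ∈ S, Op k y ∈ S)
    (hlip : ∀ k, ∀ y ∈ S, ∀ y' ∈ S, dist (Op k y) (Op k y') ≤ 1 / 3 * dist y y') :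
    ∃ f : ℕ → Y, ∀ k, f k ∈ S ∧ f k = Op k (f (k + 1)) := by
  classical
  obtain ⟨y0, hy0⟩ := hne
  let g : ℕ → ℕ → Y := fun n => Nat.rec (fun _ => y0) (fun _ gn k => Op k (gn (k + 1))) n
  have g0 : ∀ k, g 0 k = y0 := fun k => rfl
  have gs : ∀ n k, g (n + 1) k = Op k (g n (k + 1)) := fun n k => rfl
  have gS : ∀ n k, g n k ∈ S := by
    intro n
    induction n with
    | zero => intro k; rw [g0]; exact hy0
    | succ n ih => intro k; rw [gs]; exact hmaps k _ (ih (k + 1))
  have hd : ∀ n k, dist (g n k) (g (n + 1) k) ≤ C * (1 / 3) ^ n := by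
    intro n
    induction n with
    | zero => intro k; simpa using hC _ _
    | succ n ih =>
      intro k
      rw [gs n k, gs (n + 1) k]
      refine (hlip k _ (gS n (k + 1)) _ (gS (n + 1) (k + 1))).trans ?_
      have := ih (k + 1)
      rw [pow_succ]
      linarith
  have hcs : ∀ k, CauchySeq fun n => g n k := fun k =>
    cauchySeq_of_le_geometric (1 / 3) C (by norm_num) (fun n => hd n k)
  choose f hf using fun k => cauchySeq_tendsto_of_complete (hcs k)
  have hfS : ∀ k, f k ∈ S := fun k =>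
    hS.mem_of_tendsto (hf k) (Filter.Eventually.of_forall fun n => gS n k)
  refine ⟨f, fun k => ⟨hfS k, ?_⟩⟩
  have h1 : Filter.Tendsto (fun n => g (n + 1) k) Filter.atTop (nhds (f k)) :=
    (hf k).comp (Filter.tendsto_add_atTop_nat 1)
  have h2 : Filter.Tendsto (fun n => g (n + 1) k) Filter.atTop (nhds (Op k (f (k + 1)))) := by
    rw [tendsto_iff_dist_tendsto_zero]
    have h3 : Filter.Tendsto (fun n => 1 / 3 * dist (g n (k + 1)) (f (k + 1))) Filter.atTop (nhds 0) := by
      have := (tendsto_iff_dist_tendsto_zero.1 (hf (k + 1))).const_mul (1 / 3 : ℝ)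
      simpa using this
    refine squeeze_zero (fun n => dist_nonneg) (fun n => ?_) h3
    rw [gs n k]
    exact hlip k _ (gS n (k + 1)) _ (hfS (k + 1))
  exact tendsto_nhds_unique h1 h2

end Pool.Agent.MP_97b1c0_an.CP
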