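import Pool.Agent.MP_97b1c0_an.CP.Glue
import Pool.Agent.MP_97b1c0_an.CP.Family
import Pool.Agent.MP_97b1c0_an.CP.Walks

set_option autoImplicit false

namespace Pool.Agent.MP_97b1c0_an.CP

open Set Function

theorem Delta_dist_le_one (γ γ' : C(unitInterval, unitInterval)) : dist γ γ' ≤ 1 := by
  rw [ContinuousMap.dist_le zero_le_one]
  intro x
  rw [Subtype.dist_eq, Real.dist_eq, abs_le]
  constructor <;> linarith [(γ x).2.1, (γ x).2.2, (γ' x).2.1, (γ' x).2.2]

section Delta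
variable (ζ : ℕ → C(unitInterval, unitInterval))

/-- auxiliary: the inner pieces -/
noncomputable def Delta_uin (k n : ℕ) (δ : unitInterval → unitInterval) (e' : ℕ)
    (s : unitInterval) : unitInterval :=
  if e' < 2 * Q (k + 1) then
    χ k (2 * Q k + hk k (Mk k n) (2 * Q (k + 1) - 1 - e')) (ζ (k + 1) s)
  else χ k (2 * Q k + Mk k n) (δ (χ (k + 1) e' s))

/-- auxiliary: the inner vertex values -/
noncomputable def Delta_Vin (k n : ℕ) (δ : unitInterval → unitInterval) (v : ℕ) : unitInterval :=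
  if v ≤ 2 * Q (k + 1) then pt k (2 * (Q k : ℤ) + w k (Mk k n) (2 * Q (k + 1) - v)).toNat
  else χ k (2 * Q k + Mk k n) (δ (pt (k + 1) v))

theorem Delta_ori_A (k e : ℕ) (he : e < 2 * Q k) : ori k e = decide (e % 2 = 1) := by
  unfold ori; rw [if_pos he]

theorem Delta_ori_D (k e : ℕ) (he : 2 * Q k ≤ e) : ori k e = decide (e % 2 = 0) := by
  unfold ori; rw [if_neg (not_lt.mpr he)]

theorem Delta_v0_A (k e : ℕ) (he : e < 2 * Q k) : v0 k e = e + 1 - e % 2 := by
  unfold v0; rw [Delta_ori_A k e he]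
  rcases Nat.mod_two_eq_zero_or_one e with h | h <;> simp [h]

theorem Delta_v1_A (k e : ℕ) (he : e < 2 * Q k) : v1 k e = e + e % 2 := by
  unfold v1; rw [Delta_ori_A k e he]
  rcases Nat.mod_two_eq_zero_or_one e with h | h <;> simp [h]

theorem Delta_v0_D (k e : ℕ) (he : 2 * Q k ≤ e) : v0 k e = e + e % 2 := by
  unfold v0; rw [Delta_ori_D k e he]
  rcases Nat.mod_two_eq_zero_or_one e with h | h <;> simp [h]

theorem Delta_v1_D (k e : ℕ) (he : 2 * Q k ≤ e) : v1 k e = e + 1 - e % 2 := by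
  unfold v1; rw [Delta_ori_D k e he]
  rcases Nat.mod_two_eq_zero_or_one e with h | h <;> simp [h]

variable {ζ} (hζ : ZetaSpec ζ)

include hζ in
theorem Delta_in0 (k n : ℕ) (δ : unitInterval → unitInterval) (hδ : δ tt = 1) (e' : ℕ) :
    Delta_uin ζ k n δ e' 0 = Delta_Vin k n δ (v0 (k + 1) e') := by
  unfold Delta_uin Delta_Vin
  by_cases he' : e' < 2 * Q (k + 1)
  · rw [if_pos he', Delta_v0_A _ _ he', if_pos (by omega), hζ.zero, χ_zero]
    have h1 := v0_two_Q_add_hk k n (2 * Q (k + 1) - 1 - e')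
    have h2 : 2 * Q (k + 1) - (e' + 1 - e' % 2) =
      2 * Q (k + 1) - 1 - e' + 1 - (2 * Q (k + 1) - 1 - e') % 2 := by omega
    rw [h2, ← h1, Int.toNat_natCast]
  · rw [if_neg he', χ_zero, Delta_v0_D _ _ (not_lt.mp he')]
    by_cases h : e' + e' % 2 ≤ 2 * Q (k + 1)
    · rw [if_pos h]
      have h1 : e' + e' % 2 = 2 * Q (k + 1) := by omega
      have hM2 := Mk_even k n
      rw [h1, pt_two_Q, hδ, χ_one, Nat.sub_self, w_zero, Delta_v1_D _ _ (by omega)]
      congr 1
      omega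
    · rw [if_neg h]

include hζ in
theorem Delta_in1 (k n : ℕ) (δ : unitInterval → unitInterval) (e' : ℕ) :
    Delta_uin ζ k n δ e' 1 = Delta_Vin k n δ (v1 (k + 1) e') := by
  unfold Delta_uin Delta_Vin
  by_cases he' : e' < 2 * Q (k + 1)
  · rw [if_pos he', Delta_v1_A _ _ he', if_pos (by omega), hζ.one, χ_one]
    have h1 := v1_two_Q_add_hk k n (2 * Q (k + 1) - 1 - e')
    have h2 : 2 * Q (k + 1) - (e' + e' % 2) =
      2 * Q (k + 1) - 1 - e' + (2 * Q (k + 1) - 1 - e') % 2 := by omega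
    rw [h2, ← h1, Int.toNat_natCast]
  · rw [if_neg he', χ_one, Delta_v1_D _ _ (not_lt.mp he'), if_neg (by omega)]

variable (ζ) in
/-- auxiliary: the inner map -/
noncomputable def Delta_inn (k n : ℕ) (δ : unitInterval → unitInterval) :
    unitInterval → unitInterval := glue (k + 1) (Delta_uin ζ k n δ)

include hζ in
theorem Delta_inn_χ (k n : ℕ) (δ : unitInterval → unitInterval) (hδ : δ tt = 1) (e' : ℕ)
    (he' : e' < 3 * Q (k + 1)) (s : unitInterval) :
    Delta_inn ζ k n δ (χ (k + 1) e' s) = Delta_uin ζ k n δ e' s :=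
  glue_χ (k + 1) _ (Delta_Vin k n δ) (fun e' _ => Delta_in0 hζ k n δ hδ e')
    (fun e' _ => Delta_in1 hζ k n δ e') e' he' s

include hζ in
theorem Delta_inn_cont (k n : ℕ) (δ : unitInterval → unitInterval) (hc : Continuous δ)
    (hδ : δ tt = 1) : Continuous (Delta_inn ζ k n δ) := by
  refine glue_continuous (k + 1) _ (Delta_Vin k n δ) (fun e' _ => Delta_in0 hζ k n δ hδ e')
    (fun e' _ => Delta_in1 hζ k n δ e') ?_
  intro e' _
  unfold Delta_uin
  by_cases he' : e' < 2 * Q (k + 1)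
  · simp only [if_pos he']
    exact (χ_continuous _ _).comp (ζ (k + 1)).continuous
  · simp only [if_neg he']
    exact (χ_continuous _ _).comp (hc.comp (χ_continuous _ _))

include hζ in
theorem Delta_inn_one (k n : ℕ) (δ : unitInterval → unitInterval) (hδ : δ tt = 1) :
    Delta_inn ζ k n δ 1 = χ k (2 * Q k + Mk k n) (δ 1) := by
  have hQ := Q_pos (k + 1)
  conv_lhs => rw [← χ_last_one (k + 1)]
  rw [Delta_inn_χ hζ k n δ hδ _ (by omega)]
  unfold Delta_uin
  rw [if_neg (by omega), χ_last_one]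

include hζ in
theorem Delta_inn_zero (k n : ℕ) (δ : unitInterval → unitInterval) (hδ : δ tt = 1) :
    Delta_inn ζ k n δ 0 = 1 := by
  have hQ := Q_pos (k + 1)
  conv_lhs => rw [← χ_zero_one (k + 1)]
  rw [Delta_inn_χ hζ k n δ hδ 0 (by omega)]
  unfold Delta_uin
  rw [if_pos (by omega), hζ.one, χ_one]
  have h2 := v1_two_Q_add_hk k n (2 * Q (k + 1) - 1 - 0)
  have h3 : 2 * Q (k + 1) - 1 - 0 + (2 * Q (k + 1) - 1 - 0) % 2 = 2 * Q (k + 1) := by omega
  rw [h3, w_two_Q] at h2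
  have h4 : v1 k (2 * Q k + hk k (Mk k n) (2 * Q (k + 1) - 1 - 0)) = 3 * Q k := by omega
  rw [h4, pt_three_Q]

variable (ζ) in
/-- auxiliary: the outer pieces -/
noncomputable def Delta_uout (k : ℕ) (δ : unitInterval → unitInterval) (e : ℕ)
    (t : unitInterval) : unitInterval :=
  if e < 2 * Q k then ζ k t else Delta_inn ζ k (e - 2 * Q k) δ t

/-- auxiliary: the outer vertex values -/
noncomputable def Delta_Vout (k : ℕ) (δ : unitInterval → unitInterval) (v : ℕ) : unitInterval :=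
  if v ≤ 2 * Q k then (if v % 2 = 1 then 0 else 1)
  else (if v % 2 = 1 then χ k (2 * Q k + Mk k (v - 2 * Q k)) (δ 1) else 1)

include hζ in
theorem Delta_out0 (k : ℕ) (δ : unitInterval → unitInterval) (hδ : δ tt = 1) (e : ℕ) :
    Delta_uout ζ k δ e 0 = Delta_Vout k δ (v0 k e) := by
  unfold Delta_uout Delta_Vout
  by_cases he : e < 2 * Q k
  · rw [if_pos he, Delta_v0_A _ _ he, if_pos (by omega), if_pos (by omega), hζ.zero]
  · rw [if_neg he, Delta_inn_zero hζ k _ δ hδ, Delta_v0_D _ _ (not_lt.mp he)]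
    rw [if_neg (show ¬ (e + e % 2) % 2 = 1 by omega), if_neg (show ¬ (e + e % 2) % 2 = 1 by omega),
      ite_self]

include hζ in
theorem Delta_out1 (k : ℕ) (δ : unitInterval → unitInterval) (hδ : δ tt = 1) (e : ℕ) :
    Delta_uout ζ k δ e 1 = Delta_Vout k δ (v1 k e) := by
  unfold Delta_uout Delta_Vout
  by_cases he : e < 2 * Q k
  · rw [if_pos he, Delta_v1_A _ _ he, if_pos (by omega), if_neg (by omega), hζ.one]
  · rw [if_neg he, Delta_inn_one hζ k _ δ hδ, Delta_v1_D _ _ (not_lt.mp he), if_neg (by omega),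
      if_pos (by omega)]
    obtain ⟨n, rfl⟩ : ∃ n, e = 2 * Q k + n := ⟨e - 2 * Q k, by omega⟩
    rw [Nat.add_sub_cancel_left]
    congr 2
    rcases Nat.mod_two_eq_zero_or_one n with h | h
    · obtain ⟨i, rfl⟩ : ∃ i, n = 2 * i := ⟨n / 2, by omega⟩
      rw [Mk_pair]
      congr 1
      omega
    · congr 1
      omega

variable (ζ) in
/-- auxiliary: the outer map -/
noncomputable def Delta_out (k : ℕ) (δ : unitInterval → unitInterval) :
    unitInterval → unitInterval := glue k (Delta_uout ζ k δ)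

include hζ in
theorem Delta_out_χ (k : ℕ) (δ : unitInterval → unitInterval) (hδ : δ tt = 1) (e : ℕ)
    (he : e < 3 * Q k) (t : unitInterval) :
    Delta_out ζ k δ (χ k e t) = Delta_uout ζ k δ e t :=
  glue_χ k _ (Delta_Vout k δ) (fun e _ => Delta_out0 hζ k δ hδ e)
    (fun e _ => Delta_out1 hζ k δ hδ e) e he t

include hζ in
theorem Delta_out_cont (k : ℕ) (δ : unitInterval → unitInterval) (hc : Continuous δ)
    (hδ : δ tt = 1) : Continuous (Delta_out ζ k δ) := by
  refine glue_continuous k _ (Delta_Vout k δ) (fun e _ => Delta_out0 hζ k δ hδ e)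
    (fun e _ => Delta_out1 hζ k δ hδ e) ?_
  intro e _
  unfold Delta_uout
  by_cases he : e < 2 * Q k
  · simp only [if_pos he]
    exact (ζ k).continuous
  · simp only [if_neg he]
    exact Delta_inn_cont hζ k _ δ hc hδ

include hζ in
theorem Delta_out_tt (k : ℕ) (δ : unitInterval → unitInterval) (hδ : δ tt = 1) :
    Delta_out ζ k δ tt = 1 := by
  have hQ := Q_pos k
  conv_lhs => rw [← χ_two_Q_zero k]
  rw [Delta_out_χ hζ k δ hδ _ (by omega)]
  unfold Delta_uout
  rw [if_neg (lt_irrefl _), Delta_inn_zero hζ k _ δ hδ]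

theorem Delta_out_dist (k : ℕ) (δ δ' : C(unitInterval, unitInterval)) (x : unitInterval) :
    dist (Delta_out ζ k δ x) (Delta_out ζ k δ' x) ≤ 1 / 3 * dist δ δ' := by
  have h0 : 0 ≤ 1 / 3 * dist δ δ' := by positivity
  refine glue_dist k _ _ _ (fun e _ t => ?_) x
  unfold Delta_uout
  by_cases he : e < 2 * Q k
  · simp only [if_pos he, dist_self]
    exact h0
  · simp only [if_neg he]
    refine glue_dist (k + 1) _ _ _ (fun e' _ s => ?_) t
    unfold Delta_uin
    by_cases he' : e' < 2 * Q (k + 1)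
    · simp only [if_pos he', dist_self]
      exact h0
    · simp only [if_neg he']
      refine (χ_dist _ _ _ _).trans ?_
      exact mul_le_mul_of_nonneg_left (ContinuousMap.dist_apply_le_dist _) (by norm_num)

end Delta

/-- Same with `S = {δ | δ tt = 1}`, `Op k δ = glue k (fun e t => if e < 2 Q k then ζ k t else
inn k (e - 2 Q k) δ t)`, where `inn k n δ = glue (k+1) (fun e' s => if e' < 2 Q (k+1) then
χ k (2 Q k + hk k (Mk k n) (2 Q (k+1) - 1 - e')) (ζ (k+1) s) else χ k (2 Q k + Mk k n) (δ (χ (k+1) e' s)))`.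
Inner `V v = if v ≤ 2 Q (k+1) then pt k (2 Q k + w k (Mk k n) (2 Q (k+1) - v)).toNat else
χ k (2 Q k + Mk k n) (δ (pt (k+1) v))`; at `v = 2 Q (k+1)` seen from the cell `2 Q (k+1)` (its 0-end):
`δ tt = 1`, `χ k (2 Q k + M) 1 = pt k (2 Q k + M + 1)`. With `j = 2 Q (k+1) - 1 - e'`:
`v0 (k+1) e' = e' + 1 - e' % 2`, `2 Q (k+1) - v0 = j + 1 - j % 2`(`j % 2 ≠ e' % 2`) -- use `v0_two_Q_add_hk`,
`v1_two_Q_add_hk`.
Outer: `inn 1 = χ k (2 Q k + M) (δ 1)`, `inn 0 = 1` (`0 = χ (k+1) 0 1`, `j = 2 Q (k+1) - 1`, `w_two_Q`).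
`V v = if v ≤ 2 Q k then (if v % 2 = 1 then 0 else 1) else (if v % 2 = 1 then
χ k (2 Q k + Mk k (v - 2 Q k)) (δ 1) else 1)`. -/
theorem exists_delta (ζ : ℕ → C(unitInterval, unitInterval)) (hζ : ZetaSpec ζ) :
    ∃ Δ : ℕ → C(unitInterval, unitInterval), DeltaSpec ζ Δ := by
  classical
  let S : Set (C(unitInterval, unitInterval)) := {δ | δ tt = 1}
  have hS : IsClosed S := isClosed_eq (by fun_prop) continuous_const
  have hne : S.Nonempty := ⟨ContinuousMap.const _ 1, rfl⟩
  let Op : ℕ → C(unitInterval, unitInterval) → C(unitInterval, unitInterval) := fun k δ =>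
    if h : δ tt = 1 then ⟨Delta_out ζ k δ, Delta_out_cont hζ k δ δ.continuous h⟩ else δ
  have hOp : ∀ k (δ : C(unitInterval, unitInterval)) (h : δ tt = 1) x,
      Op k δ x = Delta_out ζ k δ x := by
    intro k δ h x
    simp only [Op, dif_pos h]
    rfl
  obtain ⟨Δ, hΔ⟩ := exists_family S hS hne 1 Delta_dist_le_one Op
    (fun k δ hδ => by
      show Op k δ tt = 1
      rw [hOp k δ hδ]
      exact Delta_out_tt hζ k δ hδ)
    (fun k δ hδ δ' hδ' => by
      rw [ContinuousMap.dist_le (by positivity)]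
      intro x
      rw [hOp k δ hδ, hOp k δ' hδ']
      exact Delta_out_dist k δ δ' x)
  have happ : ∀ k x, Δ k x = Delta_out ζ k (Δ (k + 1)) x := by
    intro k x
    conv_lhs => rw [(hΔ k).2]
    exact hOp k _ (hΔ (k + 1)).1 x
  refine ⟨Δ, ⟨?_, ?_, ?_⟩⟩
  · intro k e t he
    have hQ := Q_pos k
    rw [happ, Delta_out_χ hζ k _ (hΔ (k + 1)).1 e (by omega)]
    unfold Delta_uout
    rw [if_pos he]
  · intro k n t hn ht
    have hQ := Q_pos k
    rw [happ, Delta_out_χ hζ k _ (hΔ (k + 1)).1 _ (by omega)]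
    unfold Delta_uout
    rw [if_neg (by omega), Nat.add_sub_cancel_left]
    obtain ⟨n', s, hn', rfl⟩ := exists_χ_D (k + 1) t ht
    rw [Delta_inn_χ hζ k n _ (hΔ (k + 1)).1 _ (by omega)]
    unfold Delta_uin
    rw [if_neg (by omega)]
  · intro k n j s hn hj
    have hQ := Q_pos k
    rw [happ, Delta_out_χ hζ k _ (hΔ (k + 1)).1 _ (by omega)]
    unfold Delta_uout
    rw [if_neg (by omega), Nat.add_sub_cancel_left, Delta_inn_χ hζ k n _ (hΔ (k + 1)).1 _ (by omega)]
    unfold Delta_uin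
    rw [if_pos hj]

end Pool.Agent.MP_97b1c0_an.CP
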