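import Pool.Agent.MP_97b1c0_an.CP.Glue
import Pool.Agent.MP_97b1c0_an.CP.Family
import Pool.Agent.MP_97b1c0_an.CP.Walks

set_option autoImplicit false

namespace Pool.Agent.MP_97b1c0_an.CP

open Set Function


theorem Gamma_dist_le_one (γ γ' : C(unitInterval, unitInterval)) : dist γ γ' ≤ 1 := by
  rw [ContinuousMap.dist_le zero_le_one]
  intro x
  rw [Subtype.dist_eq, Real.dist_eq, abs_le]
  constructor <;> linarith [(γ x).2.1, (γ x).2.2, (γ' x).2.1, (γ' x).2.2]

section Gamma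
variable (ζ : ℕ → C(unitInterval, unitInterval))

/-- auxiliary: the inner pieces -/
noncomputable def Gamma_uin (k e : ℕ) (γ : unitInterval → unitInterval) (e' : ℕ)
    (s : unitInterval) : unitInterval :=
  if e' < 2 * Q (k + 1) then χ k (Mk k e) (γ (χ (k + 1) e' s))
  else χ k (hk k (Mk k e) (e' - 2 * Q (k + 1))) (ζ (k + 1) s)

/-- auxiliary: the inner vertex values -/
noncomputable def Gamma_Vin (k e : ℕ) (γ : unitInterval → unitInterval) (v : ℕ) : unitInterval :=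
  if v < 2 * Q (k + 1) then χ k (Mk k e) (γ (pt (k + 1) v))
  else pt k (w k (Mk k e) (v - 2 * Q (k + 1))).toNat

theorem Gamma_ori_A (k e : ℕ) (he : e < 2 * Q k) : ori k e = decide (e % 2 = 1) := by
  unfold ori; rw [if_pos he]

theorem Gamma_ori_D (k e : ℕ) (he : 2 * Q k ≤ e) : ori k e = decide (e % 2 = 0) := by
  unfold ori; rw [if_neg (not_lt.mpr he)]

theorem Gamma_v0_A (k e : ℕ) (he : e < 2 * Q k) : v0 k e = e + 1 - e % 2 := by
  unfold v0; rw [Gamma_ori_A k e he]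
  rcases Nat.mod_two_eq_zero_or_one e with h | h <;> simp [h]

theorem Gamma_v1_A (k e : ℕ) (he : e < 2 * Q k) : v1 k e = e + e % 2 := by
  unfold v1; rw [Gamma_ori_A k e he]
  rcases Nat.mod_two_eq_zero_or_one e with h | h <;> simp [h]

theorem Gamma_v0_D (k e : ℕ) (he : 2 * Q k ≤ e) : v0 k e = e + e % 2 := by
  unfold v0; rw [Gamma_ori_D k e he]
  rcases Nat.mod_two_eq_zero_or_one e with h | h <;> simp [h]

theorem Gamma_v1_D (k e : ℕ) (he : 2 * Q k ≤ e) : v1 k e = e + 1 - e % 2 := by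
  unfold v1; rw [Gamma_ori_D k e he]
  rcases Nat.mod_two_eq_zero_or_one e with h | h <;> simp [h]

variable {ζ} (hζ : ZetaSpec ζ)

include hζ in
theorem Gamma_in0 (k e : ℕ) (γ : unitInterval → unitInterval) (e' : ℕ) :
    Gamma_uin ζ k e γ e' 0 = Gamma_Vin k e γ (v0 (k + 1) e') := by
  unfold Gamma_uin Gamma_Vin
  by_cases he' : e' < 2 * Q (k + 1)
  · rw [if_pos he', Gamma_v0_A _ _ he', if_pos (by omega), χ_zero, Gamma_v0_A _ _ he']
  · rw [if_neg he', Gamma_v0_D _ _ (not_lt.mp he'), if_neg (by omega), hζ.zero, χ_zero]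
    obtain ⟨j, rfl⟩ : ∃ j, e' = 2 * Q (k + 1) + j := ⟨e' - 2 * Q (k + 1), by omega⟩
    have h1 : 2 * Q (k + 1) + j + (2 * Q (k + 1) + j) % 2 - 2 * Q (k + 1) = j + j % 2 := by omega
    have h2 : 2 * Q (k + 1) + j - 2 * Q (k + 1) = j := by omega
    rw [h1, h2, ← v0_hk, Int.toNat_natCast]

include hζ in
theorem Gamma_in1 (k e : ℕ) (γ : unitInterval → unitInterval) (hγ : γ tt = 0) (e' : ℕ) :
    Gamma_uin ζ k e γ e' 1 = Gamma_Vin k e γ (v1 (k + 1) e') := by
  unfold Gamma_uin Gamma_Vin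
  by_cases he' : e' < 2 * Q (k + 1)
  · rw [if_pos he', χ_one, Gamma_v1_A _ _ he']
    by_cases h : e' + e' % 2 < 2 * Q (k + 1)
    · rw [if_pos h]
    · rw [if_neg h]
      have h1 : e' + e' % 2 = 2 * Q (k + 1) := by omega
      rw [h1, pt_two_Q, hγ, χ_zero, Nat.sub_self, w_zero]
      have hM := Mk_lt k e
      have hM2 := Mk_even k e
      rw [Gamma_v0_A _ _ (by omega)]
      congr 1
      omega
  · rw [if_neg he', Gamma_v1_D _ _ (not_lt.mp he'), if_neg (by omega), hζ.one, χ_one]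
    obtain ⟨j, rfl⟩ : ∃ j, e' = 2 * Q (k + 1) + j := ⟨e' - 2 * Q (k + 1), by omega⟩
    have h1 : 2 * Q (k + 1) + j + 1 - (2 * Q (k + 1) + j) % 2 - 2 * Q (k + 1) =
      j + 1 - j % 2 := by omega
    have h2 : 2 * Q (k + 1) + j - 2 * Q (k + 1) = j := by omega
    rw [h1, h2, ← v1_hk, Int.toNat_natCast]

variable (ζ) in
/-- auxiliary: the inner map -/
noncomputable def Gamma_inn (k e : ℕ) (γ : unitInterval → unitInterval) :
    unitInterval → unitInterval := glue (k + 1) (Gamma_uin ζ k e γ)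

include hζ in
theorem Gamma_inn_χ (k e : ℕ) (γ : unitInterval → unitInterval) (hγ : γ tt = 0) (e' : ℕ)
    (he' : e' < 3 * Q (k + 1)) (s : unitInterval) :
    Gamma_inn ζ k e γ (χ (k + 1) e' s) = Gamma_uin ζ k e γ e' s :=
  glue_χ (k + 1) _ (Gamma_Vin k e γ) (fun e' _ => Gamma_in0 hζ k e γ e')
    (fun e' _ => Gamma_in1 hζ k e γ hγ e') e' he' s

include hζ in
theorem Gamma_inn_cont (k e : ℕ) (γ : unitInterval → unitInterval) (hc : Continuous γ)
    (hγ : γ tt = 0) : Continuous (Gamma_inn ζ k e γ) := by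
  refine glue_continuous (k + 1) _ (Gamma_Vin k e γ) (fun e' _ => Gamma_in0 hζ k e γ e')
    (fun e' _ => Gamma_in1 hζ k e γ hγ e') ?_
  intro e' _
  unfold Gamma_uin
  by_cases he' : e' < 2 * Q (k + 1)
  · simp only [if_pos he']
    exact (χ_continuous _ _).comp (hc.comp (χ_continuous _ _))
  · simp only [if_neg he']
    exact (χ_continuous _ _).comp (ζ (k + 1)).continuous

include hζ in
theorem Gamma_inn_zero (k e : ℕ) (γ : unitInterval → unitInterval) (hγ : γ tt = 0) :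
    Gamma_inn ζ k e γ 0 = χ k (Mk k e) (γ 0) := by
  have hQ := Q_pos (k + 1)
  conv_lhs => rw [← χ_zero_one (k + 1)]
  rw [Gamma_inn_χ hζ k e γ hγ 0 (by omega)]
  unfold Gamma_uin
  rw [if_pos (by omega), χ_zero_one]

include hζ in
theorem Gamma_inn_one (k e : ℕ) (γ : unitInterval → unitInterval) (hγ : γ tt = 0) :
    Gamma_inn ζ k e γ 1 = 0 := by
  have hQ := Q_pos (k + 1)
  have hQ2 := Q_odd (k + 1)
  conv_lhs => rw [← χ_last_one (k + 1)]
  rw [Gamma_inn_χ hζ k e γ hγ _ (by omega)]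
  unfold Gamma_uin
  rw [if_neg (by omega), hζ.one, χ_one]
  have h1 : 3 * Q (k + 1) - 1 - 2 * Q (k + 1) = Q (k + 1) - 1 := by omega
  have h2 := v1_hk k e (Q (k + 1) - 1)
  have h3 : Q (k + 1) - 1 + 1 - (Q (k + 1) - 1) % 2 = Q (k + 1) := by omega
  rw [h3, w_Q] at h2
  have h4 : v1 k (hk k (Mk k e) (Q (k + 1) - 1)) = 0 := by exact_mod_cast h2
  rw [h1, h4, pt_zero]

variable (ζ) in
/-- auxiliary: the outer pieces -/
noncomputable def Gamma_uout (k : ℕ) (γ : unitInterval → unitInterval) (e : ℕ)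
    (t : unitInterval) : unitInterval :=
  if e < 2 * Q k then Gamma_inn ζ k e γ t else ζ k t

/-- auxiliary: the outer vertex values -/
noncomputable def Gamma_Vout (k : ℕ) (γ : unitInterval → unitInterval) (v : ℕ) : unitInterval :=
  if v < 2 * Q k then (if v % 2 = 1 then χ k (Mk k v) (γ 0) else 0)
  else (if v % 2 = 0 then 0 else 1)

include hζ in
theorem Gamma_out0 (k : ℕ) (γ : unitInterval → unitInterval) (hγ : γ tt = 0) (e : ℕ) :
    Gamma_uout ζ k γ e 0 = Gamma_Vout k γ (v0 k e) := by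
  unfold Gamma_uout Gamma_Vout
  by_cases he : e < 2 * Q k
  · rw [if_pos he, Gamma_inn_zero hζ k e γ hγ, Gamma_v0_A _ _ he, if_pos (by omega),
      if_pos (by omega)]
    congr 1
    rcases Nat.mod_two_eq_zero_or_one e with h | h
    · obtain ⟨i, rfl⟩ : ∃ i, e = 2 * i := ⟨e / 2, by omega⟩
      rw [h, Mk_pair]
      rfl
    · rw [h]; rfl
  · rw [if_neg he, Gamma_v0_D _ _ (not_lt.mp he), if_neg (by omega), if_pos (by omega), hζ.zero]

include hζ in
theorem Gamma_out1 (k : ℕ) (γ : unitInterval → unitInterval) (hγ : γ tt = 0) (e : ℕ) :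
    Gamma_uout ζ k γ e 1 = Gamma_Vout k γ (v1 k e) := by
  unfold Gamma_uout Gamma_Vout
  by_cases he : e < 2 * Q k
  · rw [if_pos he, Gamma_inn_one hζ k e γ hγ, Gamma_v1_A _ _ he]
    by_cases h : e + e % 2 < 2 * Q k
    · rw [if_pos h, if_neg (by omega)]
    · rw [if_neg h, if_pos (by omega)]
  · rw [if_neg he, Gamma_v1_D _ _ (not_lt.mp he), if_neg (by omega), if_neg (by omega), hζ.one]

variable (ζ) in
/-- auxiliary: the outer map -/
noncomputable def Gamma_out (k : ℕ) (γ : unitInterval → unitInterval) :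
    unitInterval → unitInterval := glue k (Gamma_uout ζ k γ)

include hζ in
theorem Gamma_out_χ (k : ℕ) (γ : unitInterval → unitInterval) (hγ : γ tt = 0) (e : ℕ)
    (he : e < 3 * Q k) (t : unitInterval) :
    Gamma_out ζ k γ (χ k e t) = Gamma_uout ζ k γ e t :=
  glue_χ k _ (Gamma_Vout k γ) (fun e _ => Gamma_out0 hζ k γ hγ e)
    (fun e _ => Gamma_out1 hζ k γ hγ e) e he t

include hζ in
theorem Gamma_out_cont (k : ℕ) (γ : unitInterval → unitInterval) (hc : Continuous γ)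
    (hγ : γ tt = 0) : Continuous (Gamma_out ζ k γ) := by
  refine glue_continuous k _ (Gamma_Vout k γ) (fun e _ => Gamma_out0 hζ k γ hγ e)
    (fun e _ => Gamma_out1 hζ k γ hγ e) ?_
  intro e _
  unfold Gamma_uout
  by_cases he : e < 2 * Q k
  · simp only [if_pos he]
    exact Gamma_inn_cont hζ k e γ hc hγ
  · simp only [if_neg he]
    exact (ζ k).continuous

include hζ in
theorem Gamma_out_tt (k : ℕ) (γ : unitInterval → unitInterval) (hγ : γ tt = 0) :
    Gamma_out ζ k γ tt = 0 := by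
  have hQ := Q_pos k
  conv_lhs => rw [← χ_two_Q_zero k]
  rw [Gamma_out_χ hζ k γ hγ _ (by omega)]
  unfold Gamma_uout
  rw [if_neg (lt_irrefl _), hζ.zero]

theorem Gamma_out_dist (k : ℕ) (γ γ' : C(unitInterval, unitInterval)) (x : unitInterval) :
    dist (Gamma_out ζ k γ x) (Gamma_out ζ k γ' x) ≤ 1 / 3 * dist γ γ' := by
  have h0 : 0 ≤ 1 / 3 * dist γ γ' := by positivity
  refine glue_dist k _ _ _ (fun e _ t => ?_) x
  unfold Gamma_uout
  by_cases he : e < 2 * Q k
  · simp only [if_pos he]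
    refine glue_dist (k + 1) _ _ _ (fun e' _ s => ?_) t
    unfold Gamma_uin
    by_cases he' : e' < 2 * Q (k + 1)
    · simp only [if_pos he']
      refine (χ_dist _ _ _ _).trans ?_
      exact mul_le_mul_of_nonneg_left (ContinuousMap.dist_apply_le_dist _) (by norm_num)
    · simp only [if_neg he', dist_self]
      exact h0
  · simp only [if_neg he, dist_self]
    exact h0

end Gamma

/-- `exists_family` with `Y = C(I,I)`, `S = {γ | γ tt = 0}`, `Op k γ = glue k (fun e t => if e < 2 Q k then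
inn k e γ t else ζ k t)`, where `inn k e γ = glue (k+1) (fun e' s => if e' < 2 Q (k+1) then
χ k (Mk k e) (γ (χ (k+1) e' s)) else χ k (hk k (Mk k e) (e' - 2 Q (k+1))) (ζ (k+1) s))`.
Inner glue: `V v = if v < 2 Q (k+1) then χ k (Mk k e) (γ (pt (k+1) v)) else
pt k (w k (Mk k e) (v - 2 Q (k+1))).toNat`. At `v = 2 Q (k+1)`, seen from `e' = 2 Q (k+1) - 1`: `γ tt = 0`,
`χ k M 0 = pt k (v0 k M) = pt k (M+1)`, `w k M 0 = M+1` (`hk_zero`, `v0_hk` with `j = 0`).
Cells `e' = 2 Q (k+1) + j`: `v0 (k+1) e' = 2 Q (k+1) + j + j % 2` and `v0_hk`, similarly `v1_hk`.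
Outer glue: `inn 0 = χ k (Mk k e) (γ 0)` (`0 = χ (k+1) 0 1`), `inn 1 = 0` (`1 = χ (k+1) (3 Q (k+1) - 1) 1`,
`j = Q (k+1) - 1` is even, `v1_hk`, `w_Q`). `V v = if v < 2 Q k then (if v % 2 = 1 then χ k (Mk k v) (γ 0) else 0)
else (if v % 2 = 0 then 0 else 1)`; `Mk_pair` for odd `v`. `Op k γ ∈ S`: `tt = χ k (2 Q k) 0`. -/
theorem exists_gamma (ζ : ℕ → C(unitInterval, unitInterval)) (hζ : ZetaSpec ζ) :
    ∃ Γ : ℕ → C(unitInterval, unitInterval), GammaSpec ζ Γ := by
  classical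
  let S : Set (C(unitInterval, unitInterval)) := {γ | γ tt = 0}
  have hS : IsClosed S := isClosed_eq (by fun_prop) continuous_const
  have hne : S.Nonempty := ⟨ContinuousMap.const _ 0, rfl⟩
  let Op : ℕ → C(unitInterval, unitInterval) → C(unitInterval, unitInterval) := fun k γ =>
    if h : γ tt = 0 then ⟨Gamma_out ζ k γ, Gamma_out_cont hζ k γ γ.continuous h⟩ else γ
  have hOp : ∀ k (γ : C(unitInterval, unitInterval)) (h : γ tt = 0) x,
      Op k γ x = Gamma_out ζ k γ x := by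
    intro k γ h x
    simp only [Op, dif_pos h]
    rfl
  obtain ⟨Γ, hΓ⟩ := exists_family S hS hne 1 Gamma_dist_le_one Op
    (fun k γ hγ => by
      show Op k γ tt = 0
      rw [hOp k γ hγ]
      exact Gamma_out_tt hζ k γ hγ)
    (fun k γ hγ γ' hγ' => by
      rw [ContinuousMap.dist_le (by positivity)]
      intro x
      rw [hOp k γ hγ, hOp k γ' hγ']
      exact Gamma_out_dist k γ γ' x)
  have happ : ∀ k x, Γ k x = Gamma_out ζ k (Γ (k + 1)) x := by
    intro k x
    conv_lhs => rw [(hΓ k).2]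
    exact hOp k _ (hΓ (k + 1)).1 x
  refine ⟨Γ, ⟨?_, ?_, ?_⟩⟩
  · intro k e t he he'
    rw [happ, Gamma_out_χ hζ k _ (hΓ (k + 1)).1 e he']
    unfold Gamma_uout
    rw [if_neg (not_lt.mpr he)]
  · intro k e t he ht
    have hQ := Q_pos k
    rw [happ, Gamma_out_χ hζ k _ (hΓ (k + 1)).1 e (by omega)]
    unfold Gamma_uout
    rw [if_pos he]
    obtain ⟨e', s, he', rfl⟩ := exists_χ_A (k + 1) t ht
    rw [Gamma_inn_χ hζ k e _ (hΓ (k + 1)).1 e' (by omega)]
    unfold Gamma_uin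
    rw [if_pos he']
  · intro k e j s he hj
    have hQ := Q_pos k
    rw [happ, Gamma_out_χ hζ k _ (hΓ (k + 1)).1 e (by omega)]
    unfold Gamma_uout
    rw [if_pos he, Gamma_inn_χ hζ k e _ (hΓ (k + 1)).1 _ (by omega)]
    unfold Gamma_uin
    rw [if_neg (by omega), Nat.add_sub_cancel_left]

end Pool.Agent.MP_97b1c0_an.CP
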