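import Pool.Agent.MP_97b1c0_an.CP.Charts

set_option autoImplicit false

namespace Pool.Agent.MP_97b1c0_an.CP

open Set Function

/-- Glue: `glue k u (χ k e t) = u e t`. -/
noncomputable def glue (k : ℕ) (u : ℕ → unitInterval → unitInterval) (x : unitInterval) : unitInterval :=
  u (exists_χ k x).choose (exists_χ k x).choose_spec.choose

theorem glue_χ (k : ℕ) (u : ℕ → unitInterval → unitInterval) (V : ℕ → unitInterval)
    (h0 : ∀ e < 3 * Q k, u e 0 = V (v0 k e)) (h1 : ∀ e < 3 * Q k, u e 1 = V (v1 k e))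
    (e : ℕ) (he : e < 3 * Q k) (t : unitInterval) : glue k u (χ k e t) = u e t := by
  have aux : ∀ (e0 : ℕ) (t0 : unitInterval), e0 < 3 * Q k → χ k e0 t0 = χ k e t → u e0 t0 = u e t := by
    intro e0 t0 he0 hχ
    rcases χ_eq k e0 e t0 t he0 he hχ with ⟨h, h'⟩ | ⟨h, h', h''⟩
    · rw [h, h']
    · have a1 : ∀ (e : ℕ) (t : unitInterval), e < 3 * Q k → (t = 0 ∨ t = 1) →
          u e t = V (if t = 0 then v0 k e else v1 k e) := by
        intro e t he ht
        by_cases ht0 : t = 0
        · rw [if_pos ht0, ht0, h0 e he]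
        · rw [if_neg ht0]
          rcases ht with ht | ht
          · exact absurd ht ht0
          · rw [ht, h1 e he]
      rw [a1 e0 t0 he0 h, a1 e t he h', h'']
  have hs := (exists_χ k (χ k e t)).choose_spec.choose_spec
  exact aux _ _ hs.1 hs.2

/-- e.g. `(e,t) ↦ χ k e t` on `Fin (3 * Q k) × unitInterval` is a quotient map (closed continuous
surjection), or the finite closed cover by the cells. -/
theorem glue_continuous (k : ℕ) (u : ℕ → unitInterval → unitInterval) (V : ℕ → unitInterval)
    (h0 : ∀ e < 3 * Q k, u e 0 = V (v0 k e)) (h1 : ∀ e < 3 * Q k, u e 1 = V (v1 k e))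
    (hc : ∀ e < 3 * Q k, Continuous (u e)) : Continuous (glue k u) := by
  let p : Fin (3 * Q k) × unitInterval → unitInterval := fun a => χ k a.1 a.2
  have hp : Continuous p := by
    rw [continuous_prod_of_discrete_left]
    intro a
    exact χ_continuous k a
  have hsurj : Surjective p := by
    intro x
    obtain ⟨e, t, he, het⟩ := exists_χ k x
    exact ⟨(⟨e, he⟩, t), het⟩
  have hq : Topology.IsQuotientMap p := hp.isClosedMap.isQuotientMap hp hsurj
  rw [hq.continuous_iff, continuous_prod_of_discrete_left]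
  intro a
  refine (hc a a.2).congr fun t => ?_
  exact (glue_χ k u V h0 h1 a a.2 t).symm

theorem glue_dist (k : ℕ) (u u' : ℕ → unitInterval → unitInterval) (D : ℝ)
    (h : ∀ e < 3 * Q k, ∀ t, dist (u e t) (u' e t) ≤ D) (x : unitInterval) :
    dist (glue k u x) (glue k u' x) ≤ D :=
  h _ (exists_χ k x).choose_spec.choose_spec.1 _

end Pool.Agent.MP_97b1c0_an.CP
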