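import Pool.Agent.MP_97b1c0_an.CP.Defs

set_option autoImplicit false

namespace Pool.Agent.MP_97b1c0_an.CP

open Set Function

/-! ## CP-1 labels -/

theorem Q_pos (k : ℕ) : 0 < Q k := by
  induction k with
  | zero => simp [Q]
  | succ k ih => simp only [Q]; exact Nat.mul_pos ih (by unfold q; omega)

theorem Q_odd (k : ℕ) : Q k % 2 = 1 := by
  induction k with
  | zero => simp [Q]
  | succ k ih =>
    have h : q (k + 1) % 2 = 1 := by unfold q; omega
    simp only [Q]
    rw [Nat.mul_mod, ih, h]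

private theorem aux_pos (k : ℕ) : 0 < q k := by unfold q; omega

/-- the second digit -/
private theorem aux_digit (k x : ℕ) : 2 * (x % (k + 2)) < q (k + 1) := by
  have : x % (k + 2) < k + 2 := Nat.mod_lt _ (by omega)
  unfold q; omega

/-- induction on `k` (all `e`). -/
theorem Mk_lt (k e : ℕ) : Mk k e < Q k := by
  induction k generalizing e with
  | zero => simp [Q, Mk]
  | succ k ih =>
    simp only [Q, Mk]
    have h1 := ih (e / q (k + 1))
    have h2 := aux_digit k (((if (e / q (k + 1)) % 2 = 0 then e % q (k + 1)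
      else q (k + 1) - 1 - e % q (k + 1)) / 2 + 1))
    calc _ < q (k + 1) * Mk k (e / q (k + 1)) + q (k + 1) := by omega
      _ = q (k + 1) * (Mk k (e / q (k + 1)) + 1) := by ring
      _ ≤ q (k + 1) * Q k := Nat.mul_le_mul_left _ h1
      _ = Q k * q (k + 1) := by ring

theorem Mk_even (k e : ℕ) : Mk k e % 2 = 0 := by
  induction k generalizing e with
  | zero => simp [Mk]
  | succ k ih =>
    simp only [Mk]
    have h1 := ih (e / q (k + 1))
    rw [Nat.add_mod, Nat.mul_mod, h1]
    simp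

/-- `Mk k (2i) = Mk k (2i+1)`, all `i`. Induction on `k`: write `2i = q m + a`. If `2i+1` is in the same block:
`m` even => `a` even, `a/2 = (a+1)/2`; `m` odd => `a` odd, `q-1-a` odd... so `(q-1-a)/2 = (q-1-(a+1))/2`.
If `a = q-1` (then `m` even as `q m + q - 1` is even and `q` odd): `2i+1 = q (m+1) + 0`, `m+1` odd, both
values of `y` are `q-1`, and `Mk m = Mk (m+1)` by induction (`m` even). -/
theorem Mk_pair (k i : ℕ) : Mk k (2 * i) = Mk k (2 * i + 1) := by
  induction k generalizing i with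
  | zero => simp [Mk]
  | succ k ih =>
    simp only [Mk]
    have hq : q (k + 1) % 2 = 1 := by unfold q; omega
    have hp := aux_pos (k + 1)
    have hdm := Nat.div_add_mod (2 * i) (q (k + 1))
    have hlt := Nat.mod_lt (2 * i) hp
    generalize hm : (2 * i) / q (k + 1) = m at *
    generalize ha : (2 * i) % q (k + 1) = a at *
    have hpar : (m + a) % 2 = 0 := by
      have h1 : (q (k + 1) * m + a) % 2 = 0 := by rw [hdm]; omega
      rw [Nat.add_mod, Nat.mul_mod, hq, one_mul, Nat.mod_mod] at h1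
      omega
    by_cases hc : a + 1 < q (k + 1)
    · have h1 : (2 * i + 1) / q (k + 1) = m := by
        rw [← hdm, add_assoc, Nat.mul_add_div hp, Nat.div_eq_of_lt hc, add_zero]
      have h2 : (2 * i + 1) % q (k + 1) = a + 1 := by
        rw [← hdm, add_assoc, Nat.mul_add_mod, Nat.mod_eq_of_lt hc]
      rw [h1, h2]
      by_cases hm2 : m % 2 = 0
      · rw [if_pos hm2, if_pos hm2]
        have : a / 2 = (a + 1) / 2 := by omega
        rw [this]
      · rw [if_neg hm2, if_neg hm2]
        have : (q (k + 1) - 1 - a) / 2 = (q (k + 1) - 1 - (a + 1)) / 2 := by omega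
        rw [this]
    · have hae : a + 1 = q (k + 1) := by omega
      have h0 : 2 * i + 1 = q (k + 1) * (m + 1) := by
        rw [← hdm, add_assoc, hae]; ring
      have h1 : (2 * i + 1) / q (k + 1) = m + 1 := by
        rw [h0, Nat.mul_div_cancel_left _ hp]
      have h2 : (2 * i + 1) % q (k + 1) = 0 := by
        rw [h0, Nat.mul_mod_right]
      have hm2 : m % 2 = 0 := by omega
      have hm3 : ¬ (m + 1) % 2 = 0 := by omega
      rw [h1, h2, if_pos hm2, if_neg hm3]
      have e1 : a = q (k + 1) - 1 - 0 := by omega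
      rw [← e1]
      obtain ⟨j, hj⟩ : ∃ j, m = 2 * j := ⟨m / 2, by omega⟩
      rw [hj, ih j]

theorem Mk_div (k e : ℕ) : Mk (k + 1) e / q (k + 1) = Mk k (e / q (k + 1)) := by
  simp only [Mk]
  rw [Nat.mul_add_div (aux_pos _), Nat.div_eq_of_lt (aux_digit k _), add_zero]

private theorem aux_mod (k e : ℕ) (h : (e / q (k + 1)) % 2 = 0) :
    Mk (k + 1) e % q (k + 1) = 2 * (((e % q (k + 1)) / 2 + 1) % (k + 2)) := by
  simp only [Mk]
  rw [if_pos h, Nat.mul_add_mod, Nat.mod_eq_of_lt (aux_digit k _)]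

/-- Let `N = k+1`, `e = Mk N e'` (`e' = (Mk N)^[N-1] e`), so `e / q` is even (a value of `Mk k`) and
`e % q = 2c`, `c < p = N+1`. By induction on `n`: `((Mk N)^[n] e) / q` is even and
`((Mk N)^[n] e) % q = 2 ((c + n) % (N+1))`. For `n = N`: `(c + N) % (N+1) ≠ c`. -/
theorem Mk_not_periodic (N e : ℕ) (hN : 1 ≤ N) : (Mk N)^[N] e ≠ e := by
  obtain ⟨k, rfl⟩ : ∃ k, N = k + 1 := ⟨N - 1, by omega⟩
  intro he
  have hev : ∃ e', e = Mk (k + 1) e' := by
    refine ⟨(Mk (k + 1))^[k] e, ?_⟩
    rw [← Function.iterate_succ_apply' (Mk (k + 1)) k e]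
    exact he.symm
  obtain ⟨e', he'⟩ := hev
  have h1 : (e / q (k + 1)) % 2 = 0 := by rw [he', Mk_div]; exact Mk_even _ _
  obtain ⟨c, hc, hc2⟩ : ∃ c, c < k + 2 ∧ e % q (k + 1) = 2 * c := by
    rw [he']
    simp only [Mk]
    rw [Nat.mul_add_mod, Nat.mod_eq_of_lt (aux_digit k _)]
    exact ⟨_, Nat.mod_lt _ (by omega), rfl⟩
  have key : ∀ n, ((Mk (k + 1))^[n] e / q (k + 1)) % 2 = 0 ∧
      (Mk (k + 1))^[n] e % q (k + 1) = 2 * ((c + n) % (k + 2)) := by
    intro n
    induction n with
    | zero =>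
      refine ⟨h1, ?_⟩
      rw [Function.iterate_zero, id, hc2, add_zero, Nat.mod_eq_of_lt hc]
    | succ n ih =>
      rw [Function.iterate_succ_apply']
      refine ⟨by rw [Mk_div]; exact Mk_even _ _, ?_⟩
      rw [aux_mod k _ ih.1, ih.2, Nat.mul_div_cancel_left _ (by norm_num : 0 < 2),
        ← add_assoc, Nat.mod_add_mod]
  have h2 := (key (k + 1)).2
  rw [he, hc2] at h2
  have h3 : c = (c + (k + 1)) % (k + 2) := by omega
  rcases Nat.eq_zero_or_pos c with h0 | h0
  · rw [h0, zero_add, Nat.mod_eq_of_lt (by omega)] at h3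
    omega
  · have : (c + (k + 1)) % (k + 2) = c - 1 := by
      have e1 : c + (k + 1) = (c - 1) + (k + 2) := by omega
      rw [e1, Nat.add_mod_right, Nat.mod_eq_of_lt (by omega)]
    omega

end Pool.Agent.MP_97b1c0_an.CP
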