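import Pool.Agent.MP_97b1c0_an.CP.Inter

set_option autoImplicit false

namespace Pool.Agent.MP_97b1c0_an.CP

open Set Function

/-! ## CP-9 no common periodic point -/

/-- Let `AA k x := ∀ n, (Δ k)^[n] x < 2/3`. (1) `AA k (χ k e t)` and `e < 2 Q k` give `AA (k+1) t`:
`(Δ k)^[n+1] (χ k e t) = (Δ k)^[n] (ζ k t) = ζ k ((Δ (k+1))^[n] t)` (`delta_zeta`), and `zeta_lt`.
(2) So there are `t_0 = x`, `t_k = χ k e_k t_(k+1)`, `e_k < 2 Q k`, `AA k t_k` for all `k` (`exists_χ_A`; choose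
recursively); `t_k ≠ 1`, and `t_k ≠ 0` (`χ_eq_zero` would give `t_(k+1) = 1`).
(3) By induction on `n`, for all `k`: `(Γ k)^[n] t_k = χ k ((Mk k)^[n] e_k) ((Γ (k+1))^[n] t_(k+1))`, with
`(Mk k)^[n] e_k < 2 Q k` (uses `(Γ (k+1))^[n] t_(k+1) ≤ 2/3`, which is the statement for `k+1` and `χ_le`).
(4) If `(Γ 0)^[N] x = x`: by induction on `k`, `(Γ k)^[N] t_k = t_k`, and `(Mk k)^[N] e_k = e_k` (`χ_inj_A`).
(5) `k = N` contradicts `Mk_not_periodic`. -/
theorem no_periodic_A {ζ Γ Δ : ℕ → C(unitInterval, unitInterval)} (hζ : ZetaSpec ζ)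
    (hΓ : GammaSpec ζ Γ) (hΔ : DeltaSpec ζ Δ) (x : unitInterval) (N : ℕ) (hN : 1 ≤ N)
    (hx : ∀ n, ((Δ 0)^[n] x : ℝ) < 2 / 3) : (Γ 0)^[N] x ≠ x := by
  have step : ∀ (k : ℕ) (y : unitInterval), (∀ n, ((Δ k)^[n] y : ℝ) < 2 / 3) →
      ∃ (e : ℕ) (t : unitInterval), e < 2 * Q k ∧ χ k e t = y ∧
        ∀ n, ((Δ (k + 1))^[n] t : ℝ) < 2 / 3 := by
    intro k y hy
    obtain ⟨e, t, he, het⟩ := exists_χ_A k y (by simpa using (hy 0).le)
    refine ⟨e, t, he, het, fun n => ?_⟩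
    have h1 := hy (n + 1)
    rw [iterate_succ_apply, ← het, hΔ.inactive k e t he] at h1
    have hsc : Semiconj (ζ k) (Δ (k + 1)) (Δ k) := fun t => (delta_zeta hζ hΔ k t).symm
    rw [← (hsc.iterate_right n).eq t] at h1
    exact zeta_lt hζ k _ h1
  choose! e t h using step
  let s : ℕ → unitInterval := fun k => Nat.rec x (fun k y => t k y) k
  have s0 : s 0 = x := rfl
  have ss : ∀ k, s (k + 1) = t k (s k) := fun k => rfl
  have hs : ∀ k n, ((Δ k)^[n] (s k) : ℝ) < 2 / 3 := by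
    intro k
    induction k with
    | zero => exact hx
    | succ k ih => rw [ss]; exact (h k (s k) ih).2.2
  have he : ∀ k, e k (s k) < 2 * Q k := fun k => (h k (s k) (hs k)).1
  have hχ : ∀ k, χ k (e k (s k)) (s (k + 1)) = s k := fun k => (h k (s k) (hs k)).2.1
  have hs1 : ∀ k, s k ≠ 1 := by
    intro k hk
    have := hs k 0
    simp only [iterate_zero, id, hk] at this
    norm_num at this
  have hs0 : ∀ k, s k ≠ 0 := by
    intro k hk
    refine hs1 (k + 1) (χ_eq_zero k (e k (s k)) _ (by have := he k; omega) ?_)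
    rw [hχ k, hk]
  have key : ∀ n k, (Γ k)^[n] (s k) = χ k ((Mk k)^[n] (e k (s k))) ((Γ (k + 1))^[n] (s (k + 1))) ∧
      (Mk k)^[n] (e k (s k)) < 2 * Q k := by
    intro n
    induction n with
    | zero => intro k; exact ⟨(hχ k).symm, he k⟩
    | succ n ih =>
      intro k
      obtain ⟨i1, i2⟩ := ih k
      obtain ⟨i3, i4⟩ := ih (k + 1)
      have hle : (((Γ (k + 1))^[n] (s (k + 1)) : unitInterval) : ℝ) ≤ 2 / 3 := by
        rw [i3]; exact χ_le _ _ _ i4
      constructor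
      · rw [iterate_succ_apply' (Γ k), i1, hΓ.active k _ _ i2 hle, iterate_succ_apply' (Mk k),
          iterate_succ_apply' (Γ (k + 1))]
      · rw [iterate_succ_apply']
        have := Mk_lt k ((Mk k)^[n] (e k (s k)))
        omega
  intro hper
  have hp : ∀ k, (Γ k)^[N] (s k) = s k ∧ e k (s k) = (Mk k)^[N] (e k (s k)) := by
    have aux : ∀ k, (Γ k)^[N] (s k) = s k →
        e k (s k) = (Mk k)^[N] (e k (s k)) ∧ s (k + 1) = (Γ (k + 1))^[N] (s (k + 1)) := by
      intro k hk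
      obtain ⟨i1, i2⟩ := key N k
      refine χ_inj_A k _ _ _ _ ?_ ?_ (hs0 (k + 1)) (hs1 (k + 1)) ?_
      · have := he k; omega
      · omega
      · rw [hχ k, ← i1, hk]
    intro k
    induction k with
    | zero => exact ⟨hper, (aux 0 hper).1⟩
    | succ k ih =>
      have := (aux k ih.1).2.symm
      exact ⟨this, (aux (k + 1) this).1⟩
  exact Mk_not_periodic N _ hN (hp N).2.symm

/-- Same with `BB k x := ∀ n, 2/3 < (Γ k)^[n] x`, cells `2 Q k + n_k`, labels by `Mk k`; in (4) only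
`(Mk k)^[N] n_k / 2 = n_k / 2` and `(Δ k)^[N] t_k = t_k` (`χ_inj_D`, `t_(k+1) ≠ 0`); by `Mk_pair`, `Mk k a` depends
only on `a / 2`, so `n' = (Mk k)^[N] n_k` satisfies `(Mk k)^[N] n' = n'`, contradiction for `k = N`. -/
theorem no_periodic_D {ζ Γ Δ : ℕ → C(unitInterval, unitInterval)} (hζ : ZetaSpec ζ)
    (hΓ : GammaSpec ζ Γ) (hΔ : DeltaSpec ζ Δ) (x : unitInterval) (N : ℕ) (hN : 1 ≤ N)
    (hx : ∀ n, 2 / 3 < ((Γ 0)^[n] x : ℝ)) : (Δ 0)^[N] x ≠ x := by
  have step : ∀ (k : ℕ) (y : unitInterval), (∀ n, 2 / 3 < ((Γ k)^[n] y : ℝ)) →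
      ∃ (e : ℕ) (t : unitInterval), e < Q k ∧ χ k (2 * Q k + e) t = y ∧
        ∀ n, 2 / 3 < ((Γ (k + 1))^[n] t : ℝ) := by
    intro k y hy
    obtain ⟨e, t, he, het⟩ := exists_χ_D k y (by simpa using (hy 0).le)
    refine ⟨e, t, he, het, fun n => ?_⟩
    have h1 := hy (n + 1)
    rw [iterate_succ_apply, ← het, hΓ.inactive k _ t (by omega) (by omega)] at h1
    have hsc : Semiconj (ζ k) (Γ (k + 1)) (Γ k) := fun t => (gamma_zeta hζ hΓ k t).symm
    rw [← (hsc.iterate_right n).eq t] at h1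
    exact lt_zeta hζ k _ h1
  choose! e t h using step
  let s : ℕ → unitInterval := fun k => Nat.rec x (fun k y => t k y) k
  have s0 : s 0 = x := rfl
  have ss : ∀ k, s (k + 1) = t k (s k) := fun k => rfl
  have hs : ∀ k n, 2 / 3 < ((Γ k)^[n] (s k) : ℝ) := by
    intro k
    induction k with
    | zero => exact hx
    | succ k ih => rw [ss]; exact (h k (s k) ih).2.2
  have he : ∀ k, e k (s k) < Q k := fun k => (h k (s k) (hs k)).1
  have hχ : ∀ k, χ k (2 * Q k + e k (s k)) (s (k + 1)) = s k := fun k => (h k (s k) (hs k)).2.1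
  have hs0 : ∀ k, s k ≠ 0 := by
    intro k hk
    have := hs k 0
    simp only [iterate_zero, id, hk] at this
    norm_num at this
  have key : ∀ n k, (Δ k)^[n] (s k) =
      χ k (2 * Q k + (Mk k)^[n] (e k (s k))) ((Δ (k + 1))^[n] (s (k + 1))) ∧
      (Mk k)^[n] (e k (s k)) < Q k := by
    intro n
    induction n with
    | zero => intro k; exact ⟨(hχ k).symm, he k⟩
    | succ n ih =>
      intro k
      obtain ⟨i1, i2⟩ := ih k
      obtain ⟨i3, i4⟩ := ih (k + 1)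
      have hle : 2 / 3 ≤ (((Δ (k + 1))^[n] (s (k + 1)) : unitInterval) : ℝ) := by
        rw [i3]; exact le_χ _ _ _
      constructor
      · rw [iterate_succ_apply' (Δ k), i1, hΔ.active k _ _ i2 hle, iterate_succ_apply' (Mk k),
          iterate_succ_apply' (Δ (k + 1))]
      · rw [iterate_succ_apply']
        exact Mk_lt k ((Mk k)^[n] (e k (s k)))
  intro hper
  have hp : ∀ k, (Δ k)^[N] (s k) = s k ∧ e k (s k) / 2 = (Mk k)^[N] (e k (s k)) / 2 := by
    have aux : ∀ k, (Δ k)^[N] (s k) = s k →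
        e k (s k) / 2 = (Mk k)^[N] (e k (s k)) / 2 ∧ s (k + 1) = (Δ (k + 1))^[N] (s (k + 1)) := by
      intro k hk
      obtain ⟨i1, i2⟩ := key N k
      refine χ_inj_D k _ _ _ _ (he k) i2 (hs0 (k + 1)) ?_
      rw [hχ k, ← i1, hk]
    intro k
    induction k with
    | zero => exact ⟨hper, (aux 0 hper).1⟩
    | succ k ih =>
      have := (aux k ih.1).2.symm
      exact ⟨this, (aux (k + 1) this).1⟩
  have half : ∀ a b : ℕ, a / 2 = b / 2 → Mk N a = Mk N b := by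
    have h1 : ∀ a : ℕ, Mk N a = Mk N (2 * (a / 2)) := by
      intro a
      rcases Nat.even_or_odd' a with ⟨c, hc | hc⟩
      · rw [hc]; congr 1; omega
      · rw [hc, ← Mk_pair]; congr 1; omega
    intro a b hab
    rw [h1 a, h1 b, hab]
  obtain ⟨n, rfl⟩ : ∃ n, N = n + 1 := ⟨N - 1, by omega⟩
  have h2 := (hp (n + 1)).2
  refine Mk_not_periodic (n + 1) ((Mk (n + 1))^[n + 1] (e (n + 1) (s (n + 1)))) hN ?_
  rw [iterate_succ_apply, ← half _ _ h2, ← iterate_succ_apply (Mk (n + 1))]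

end Pool.Agent.MP_97b1c0_an.CP
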