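import Pool.Agent.MP_97b1c0_an.CP.Zeta
import Pool.Agent.MP_97b1c0_an.CP.Gamma
import Pool.Agent.MP_97b1c0_an.CP.Delta
import Pool.Agent.MP_97b1c0_an.CP.Comm
import Pool.Agent.MP_97b1c0_an.CP.Per

set_option autoImplicit false

namespace Pool.Agent.MP_97b1c0_an.CP

open Set Function

/-- `g` maps `[0,2/3]` into `[0,1/3]`. -/
theorem main_gamma_le {ζ Γ : ℕ → C(unitInterval, unitInterval)} (hΓ : GammaSpec ζ Γ)
    (x : unitInterval) (hx : (x : ℝ) ≤ 2 / 3) : ((Γ 0 x : unitInterval) : ℝ) ≤ 1 / 3 := by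
  have key : ∀ s : unitInterval, (χ 0 0 s : ℝ) ≤ 1 / 3 := by
    intro s
    rw [χ_coe 0 0 s (by simp [Q])]
    have h0 := s.2.1
    have h1 := s.2.2
    have hQ : ((Q 0 : ℕ) : ℝ) = 1 := by simp [Q]
    rw [hQ]
    split_ifs
    · push_cast; linarith
    · push_cast; linarith
  obtain ⟨e, t, he, rfl⟩ := exists_χ_A 0 x hx
  rcases le_or_gt (t : ℝ) (2 / 3) with ht | ht
  · rw [hΓ.active 0 e t he ht]
    exact key _
  · obtain ⟨j, s, hj, rfl⟩ := exists_χ_D 1 t ht.le
    have h1 := hΓ.walk 0 e j s he hj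
    rw [h1]
    have h2 : hk 0 (Mk 0 e) j = 0 := by
      have := hk_lt 0 e j
      simp only [Q] at this
      omega
    rw [h2]
    exact key _

/-- `f` maps `[2/3,1]` into itself. -/
theorem main_le_delta {ζ Δ : ℕ → C(unitInterval, unitInterval)} (hΔ : DeltaSpec ζ Δ)
    (x : unitInterval) (hx : 2 / 3 ≤ (x : ℝ)) : 2 / 3 ≤ ((Δ 0 x : unitInterval) : ℝ) := by
  obtain ⟨n, t, hn, rfl⟩ := exists_χ_D 0 x hx
  rcases le_total (2 / 3) (t : ℝ) with ht | ht
  · rw [hΔ.active 0 n t hn ht]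
    exact le_χ _ _ _
  · obtain ⟨e, s, he, rfl⟩ := exists_χ_A 1 t ht
    rw [hΔ.walk 0 n e s hn he]
    exact le_χ _ _ _

/-- `f = Δ 0`, `g = Γ 0`. If `f^[a] x = x`, `g^[b] x = x`, `N = a b`: `f^[N] x = x = g^[N] x`.
`g` maps `[0,2/3]` into `[0,1/3]` and `f` maps `[2/3,1]` into itself. If `x ≤ 2/3`: `x = g^[N] x ≤ 1/3`; if some
`f^[n] x ≥ 2/3`, then `x = f^[n N] x ≥ 2/3`, contradiction; so `no_periodic_A`. If `x > 2/3`: if some
`g^[n] x ≤ 2/3` then `x = g^[n N] x ≤ 2/3`, contradiction; so `no_periodic_D`. -/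
theorem main : ∃ f g : unitInterval → unitInterval, Continuous f ∧ Continuous g ∧ f ∘ g = g ∘ f ∧
    periodicPts f ∩ periodicPts g = ∅ := by
  obtain ⟨ζ, hζ⟩ := exists_zeta
  obtain ⟨Γ, hΓ⟩ := exists_gamma ζ hζ
  obtain ⟨Δ, hΔ⟩ := exists_delta ζ hζ
  refine ⟨Δ 0, Γ 0, (Δ 0).continuous, (Γ 0).continuous, ?_, ?_⟩
  · funext x
    exact commute hζ hΓ hΔ x
  · rw [Set.eq_empty_iff_forall_notMem]
    rintro x ⟨⟨a, ha, hfa⟩, ⟨b, hb, hgb⟩⟩
    have hN : 1 ≤ a * b := Nat.mul_pos ha hb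
    have hf : IsPeriodicPt (Δ 0) (a * b) x := hfa.mul_const b
    have hg : IsPeriodicPt (Γ 0) (a * b) x := hgb.const_mul a
    have hfk : ∀ k, (Δ 0)^[a * b * k] x = x := fun k => hf.mul_const k
    have hgk : ∀ k, (Γ 0)^[a * b * k] x = x := fun k => hg.mul_const k
    have hle : ∀ n, n ≤ a * b * n := fun n => Nat.le_mul_of_pos_left n hN
    -- monotone propagation
    have pg : ∀ n m, (((Γ 0)^[n] x : unitInterval) : ℝ) ≤ 2 / 3 →
        (((Γ 0)^[n + (m + 1)] x : unitInterval) : ℝ) ≤ 1 / 3 := by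
      intro n m h
      induction m with
      | zero =>
        rw [zero_add, iterate_succ_apply']
        exact main_gamma_le hΓ _ h
      | succ m ih =>
        rw [← Nat.add_assoc, iterate_succ_apply']
        exact main_gamma_le hΓ _ (by linarith)
    have pf : ∀ n m, 2 / 3 ≤ (((Δ 0)^[n] x : unitInterval) : ℝ) →
        2 / 3 ≤ (((Δ 0)^[n + m] x : unitInterval) : ℝ) := by
      intro n m h
      induction m with
      | zero => exact h
      | succ m ih =>
        rw [← Nat.add_assoc, iterate_succ_apply']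
        exact main_le_delta hΔ _ ih
    rcases le_or_gt (x : ℝ) (2 / 3) with hx | hx
    · have hx3 : (x : ℝ) ≤ 1 / 3 := by
        have h1 := pg 0 (a * b - 1) hx
        rw [show 0 + (a * b - 1 + 1) = a * b * 1 by omega, hgk 1] at h1
        exact h1
      refine no_periodic_A hζ hΓ hΔ x (a * b) hN ?_ hg
      intro n
      by_contra hcon
      rw [not_lt] at hcon
      have h1 := pf n (a * b * n - n) hcon
      rw [show n + (a * b * n - n) = a * b * n by have := hle n; omega, hfk n] at h1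
      linarith
    · refine no_periodic_D hζ hΓ hΔ x (a * b) hN ?_ hf
      intro n
      by_contra hcon
      rw [not_lt] at hcon
      have h1 := pg n (a * b * (n + 1) - n - 1) hcon
      rw [show n + (a * b * (n + 1) - n - 1 + 1) = a * b * (n + 1) by
        have := hle (n + 1); omega, hgk (n + 1)] at h1
      linarith

end Pool.Agent.MP_97b1c0_an.CP
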