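import Pool.Agent.MP_97b1c0_an.CP.Glue
import Pool.Agent.MP_97b1c0_an.CP.Family

set_option autoImplicit false

namespace Pool.Agent.MP_97b1c0_an.CP

open Set Function

/-! ## CP-5 existence of the families -/

theorem zeta_divmod (m a c : ℕ) (hc : c < 2 * m + 1) :
    ((2 * m + 1) * a + c) / (2 * m + 1) = a ∧ ((2 * m + 1) * a + c) % (2 * m + 1) = c := by
  rw [Nat.div_mod_unique (by omega)]
  exact ⟨by ring, hc⟩

/-- arithmetic core: `s` is the target parity -/
theorem zeta_core0 (m a b s : ℕ) (hb : b < 2 * m + 1) (hs : s = 0 ∨ s = 1) :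
    (if a % 2 = s then a else a + 1) =
      (if ((2 * m + 1) * a + b) % 2 = s then (2 * m + 1) * a + b else (2 * m + 1) * a + b + 1) /
        (2 * m + 1) +
      ((if ((2 * m + 1) * a + b) % 2 = s then (2 * m + 1) * a + b else (2 * m + 1) * a + b + 1) %
        (2 * m + 1)) % 2 := by
  have hpar : ((2 * m + 1) * a + b) % 2 = (a + b) % 2 := by
    have : (2 * m + 1) * a + b = 2 * (m * a) + (a + b) := by ring
    rw [this]; omega
  rw [hpar]
  by_cases h1 : (a + b) % 2 = s
  · rw [if_pos h1, (zeta_divmod m a b hb).1, (zeta_divmod m a b hb).2]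
    split_ifs with h2 <;> omega
  · rw [if_neg h1]
    by_cases h3 : b + 1 < 2 * m + 1
    · have h4 : (2 * m + 1) * a + b + 1 = (2 * m + 1) * a + (b + 1) := by ring
      rw [h4, (zeta_divmod m a (b + 1) h3).1, (zeta_divmod m a (b + 1) h3).2]
      split_ifs with h2 <;> omega
    · have hb' : b = 2 * m := by omega
      have h4 : (2 * m + 1) * a + b + 1 = (2 * m + 1) * (a + 1) + 0 := by rw [hb']; ring
      rw [h4, (zeta_divmod m (a + 1) 0 (by omega)).1, (zeta_divmod m (a + 1) 0 (by omega)).2]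
      split_ifs with h2 <;> omega

theorem zeta_core1 (m a b s : ℕ) (hb : b < 2 * m + 1) (hs : s = 0 ∨ s = 1) :
    (if a % 2 = s then a + 1 else a) =
      (if ((2 * m + 1) * a + b) % 2 = s then (2 * m + 1) * a + b + 1 else (2 * m + 1) * a + b) /
        (2 * m + 1) +
      ((if ((2 * m + 1) * a + b) % 2 = s then (2 * m + 1) * a + b + 1 else (2 * m + 1) * a + b) %
        (2 * m + 1)) % 2 := by
  have hpar : ((2 * m + 1) * a + b) % 2 = (a + b) % 2 := by
    have : (2 * m + 1) * a + b = 2 * (m * a) + (a + b) := by ring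
    rw [this]; omega
  rw [hpar]
  by_cases h1 : (a + b) % 2 = s
  · rw [if_pos h1]
    by_cases h3 : b + 1 < 2 * m + 1
    · have h4 : (2 * m + 1) * a + b + 1 = (2 * m + 1) * a + (b + 1) := by ring
      rw [h4, (zeta_divmod m a (b + 1) h3).1, (zeta_divmod m a (b + 1) h3).2]
      split_ifs with h2 <;> omega
    · have hb' : b = 2 * m := by omega
      have h4 : (2 * m + 1) * a + b + 1 = (2 * m + 1) * (a + 1) + 0 := by rw [hb']; ring
      rw [h4, (zeta_divmod m (a + 1) 0 (by omega)).1, (zeta_divmod m (a + 1) 0 (by omega)).2]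
      split_ifs with h2 <;> omega
  · rw [if_neg h1, (zeta_divmod m a b hb).1, (zeta_divmod m a b hb).2]
    split_ifs with h2 <;> omega

theorem zeta_lt_iff (k e : ℕ) : e < 2 * Q (k + 1) ↔ e / q (k + 1) < 2 * Q k := by
  have h : Q (k + 1) = Q k * q (k + 1) := rfl
  rw [Nat.div_lt_iff_lt_mul (by unfold q; omega), h]
  constructor <;> intro h1 <;> linarith

/-- ends of the cell `e` of `T_{k+1}` versus ends of the cell `e / q` of `T_k` (`q = q (k+1)` is odd, and
`q ∣ 2 Q (k+1)`): the vertex map is `v ↦ v / q + (v % q) % 2`. -/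
theorem v0_div (k e : ℕ) : v0 k (e / q (k + 1)) =
    v0 (k + 1) e / q (k + 1) + (v0 (k + 1) e % q (k + 1)) % 2 := by
  have h := zeta_core0 (k + 1) (e / q (k + 1)) (e % q (k + 1))
    (if e / q (k + 1) < 2 * Q k then 1 else 0) (by
      have := Nat.mod_lt e (show 0 < q (k + 1) by unfold q; omega)
      unfold q at this ⊢; exact this) (by split_ifs <;> simp)
  have h1 : (2 * (k + 1) + 1) * (e / q (k + 1)) + e % q (k + 1) = e := Nat.div_add_mod e (q (k + 1))
  rw [h1] at h
  have h2 : (if e < 2 * Q (k + 1) then 1 else 0) =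
      (if e / q (k + 1) < 2 * Q k then 1 else 0) := by
    by_cases h3 : e < 2 * Q (k + 1)
    · rw [if_pos h3, if_pos ((zeta_lt_iff k e).1 h3)]
    · rw [if_neg h3, if_neg (fun h4 => h3 ((zeta_lt_iff k e).2 h4))]
  have e0 : v0 k (e / q (k + 1)) = if (e / q (k + 1)) % 2 =
      (if e / q (k + 1) < 2 * Q k then 1 else 0) then e / q (k + 1) else e / q (k + 1) + 1 := by
    unfold v0 ori
    simp only [decide_eq_true_eq]
  have e1 : v0 (k + 1) e = if e % 2 =
      (if e / q (k + 1) < 2 * Q k then 1 else 0) then e else e + 1 := by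
    unfold v0 ori
    simp only [decide_eq_true_eq]
    rw [h2]
  rw [e0, e1]
  exact h

theorem v1_div (k e : ℕ) : v1 k (e / q (k + 1)) =
    v1 (k + 1) e / q (k + 1) + (v1 (k + 1) e % q (k + 1)) % 2 := by
  have h := zeta_core1 (k + 1) (e / q (k + 1)) (e % q (k + 1))
    (if e / q (k + 1) < 2 * Q k then 1 else 0) (by
      have := Nat.mod_lt e (show 0 < q (k + 1) by unfold q; omega)
      unfold q at this ⊢; exact this) (by split_ifs <;> simp)
  have h1 : (2 * (k + 1) + 1) * (e / q (k + 1)) + e % q (k + 1) = e := Nat.div_add_mod e (q (k + 1))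
  rw [h1] at h
  have h2 : (if e < 2 * Q (k + 1) then 1 else 0) =
      (if e / q (k + 1) < 2 * Q k then 1 else 0) := by
    by_cases h3 : e < 2 * Q (k + 1)
    · rw [if_pos h3, if_pos ((zeta_lt_iff k e).1 h3)]
    · rw [if_neg h3, if_neg (fun h4 => h3 ((zeta_lt_iff k e).2 h4))]
  have e0 : v1 k (e / q (k + 1)) = if (e / q (k + 1)) % 2 =
      (if e / q (k + 1) < 2 * Q k then 1 else 0) then e / q (k + 1) + 1 else e / q (k + 1) := by
    unfold v1 ori
    simp only [decide_eq_true_eq]
  have e1 : v1 (k + 1) e = if e % 2 =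
      (if e / q (k + 1) < 2 * Q k then 1 else 0) then e + 1 else e := by
    unfold v1 ori
    simp only [decide_eq_true_eq]
    rw [h2]
  rw [e0, e1]
  exact h

theorem zeta_Q_pos (k : ℕ) : 0 < Q k := by
  induction k with
  | zero => exact Nat.one_pos
  | succ k ih =>
    show 0 < Q k * q (k + 1)
    exact Nat.mul_pos ih (by unfold q; omega)

/-- `exists_family` with `Y = C(I,I)`, `S = {z | z 0 = 0 ∧ z 1 = 1}`,
`Op k z = glue (k+1) (fun e t => χ k (e / q (k+1)) (z t))` (as a `ContinuousMap` when `z ∈ S`),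
`V v = pt k (v / q + (v % q) % 2)`.  `Op k z ∈ S`: `0 = χ (k+1) 0 1`, `1 = χ (k+1) (3 Q (k+1) - 1) 1` and
`(3 Q (k+1) - 1) / q = 3 Q k - 1`. -/
theorem exists_zeta : ∃ ζ : ℕ → C(unitInterval, unitInterval), ZetaSpec ζ := by
  classical
  let S : Set C(unitInterval, unitInterval) := {z | z 0 = 0 ∧ z 1 = 1}
  let u : ℕ → C(unitInterval, unitInterval) → ℕ → unitInterval → unitInterval :=
    fun k z e t => χ k (e / q (k + 1)) (z t)
  let V : ℕ → ℕ → unitInterval := fun k v => pt k (v / q (k + 1) + (v % q (k + 1)) % 2)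
  have h0 : ∀ k, ∀ z ∈ S, ∀ e < 3 * Q (k + 1), u k z e 0 = V k (v0 (k + 1) e) := by
    intro k z hz e _
    show χ k (e / q (k + 1)) (z 0) = _
    rw [hz.1, χ_zero, v0_div]
  have h1 : ∀ k, ∀ z ∈ S, ∀ e < 3 * Q (k + 1), u k z e 1 = V k (v1 (k + 1) e) := by
    intro k z hz e _
    show χ k (e / q (k + 1)) (z 1) = _
    rw [hz.2, χ_one, v1_div]
  have hcont : ∀ k, ∀ z ∈ S, Continuous (glue (k + 1) (u k z)) := by
    intro k z hz
    refine glue_continuous (k + 1) (u k z) (V k) (h0 k z hz) (h1 k z hz) fun e _ => ?_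
    exact (χ_continuous k _).comp z.continuous
  let Op : ℕ → C(unitInterval, unitInterval) → C(unitInterval, unitInterval) := fun k z =>
    if hz : z ∈ S then ⟨glue (k + 1) (u k z), hcont k z hz⟩ else z
  have hOp : ∀ k, ∀ z ∈ S, ∀ x, Op k z x = glue (k + 1) (u k z) x := by
    intro k z hz x
    show (if hz : z ∈ S then (⟨glue (k + 1) (u k z), hcont k z hz⟩ :
      C(unitInterval, unitInterval)) else z) x = _
    rw [dif_pos hz]
    rfl
  have hS : IsClosed S := by
    have e1 : S = {z : C(unitInterval, unitInterval) | z 0 = 0} ∩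
        {z : C(unitInterval, unitInterval) | z 1 = 1} := rfl
    rw [e1]
    exact (isClosed_eq (continuous_eval_const (0 : unitInterval)) continuous_const).inter
      (isClosed_eq (continuous_eval_const (1 : unitInterval)) continuous_const)
  have hne : S.Nonempty := ⟨ContinuousMap.id _, rfl, rfl⟩
  have hglue : ∀ k, ∀ z ∈ S, ∀ e t, e < 3 * Q (k + 1) →
      Op k z (χ (k + 1) e t) = χ k (e / q (k + 1)) (z t) := by
    intro k z hz e t he
    rw [hOp k z hz, glue_χ (k + 1) (u k z) (V k) (h0 k z hz) (h1 k z hz) e he t]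
  have hlast : ∀ k, (3 * Q (k + 1) - 1) / q (k + 1) = 3 * Q k - 1 := by
    intro k
    have h2 : Q (k + 1) = Q k * q (k + 1) := rfl
    have h3 := zeta_Q_pos k
    have h4 : 0 < q (k + 1) := by unfold q; omega
    have h5 : 3 * Q (k + 1) - 1 = q (k + 1) * (3 * Q k - 1) + (q (k + 1) - 1) := by
      rw [h2]
      obtain ⟨r, hr⟩ : ∃ r, 3 * Q k = r + 1 := ⟨3 * Q k - 1, by omega⟩
      have h6 : 3 * (Q k * q (k + 1)) = (r + 1) * q (k + 1) := by rw [← hr]; ring
      rw [h6, hr]
      have h7 : (r + 1) * q (k + 1) = q (k + 1) * r + q (k + 1) := by ring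
      rw [h7, Nat.add_sub_cancel]
      omega
    rw [h5, Nat.mul_add_div h4, Nat.div_eq_of_lt (by omega), add_zero]
  have hmaps : ∀ k, ∀ z ∈ S, Op k z ∈ S := by
    intro k z hz
    have hQ := zeta_Q_pos (k + 1)
    constructor
    · have h2 := hglue k z hz 0 1 (by omega)
      rw [χ_zero_one, Nat.zero_div, hz.2, χ_zero_one] at h2
      exact h2
    · have h2 := hglue k z hz (3 * Q (k + 1) - 1) 1 (by omega)
      rw [χ_last_one, hlast, hz.2, χ_last_one] at h2
      exact h2
  have hlip : ∀ k, ∀ z ∈ S, ∀ z' ∈ S, dist (Op k z) (Op k z') ≤ 1 / 3 * dist z z' := by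
    intro k z hz z' hz'
    rw [ContinuousMap.dist_le (by positivity)]
    intro x
    rw [hOp k z hz, hOp k z' hz']
    refine glue_dist (k + 1) _ _ _ (fun e _ t => ?_) x
    refine (χ_dist k _ _ _).trans ?_
    have := ContinuousMap.dist_apply_le_dist (f := z) (g := z') t
    linarith
  obtain ⟨ζ, hζ⟩ := exists_family S hS hne 1 (fun y y' => by
    rw [ContinuousMap.dist_le zero_le_one]
    intro x
    have h2 := Real.dist_le_of_mem_Icc_01 (y x).2 (y' x).2
    exact h2) Op hmaps hlip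
  refine ⟨ζ, ⟨fun k => (hζ k).1.1, fun k => (hζ k).1.2, fun k e t he => ?_⟩⟩
  have h2 := hglue k (ζ (k + 1)) (hζ (k + 1)).1 e t he
  rw [← (hζ k).2] at h2
  exact h2

end Pool.Agent.MP_97b1c0_an.CP
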